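import Pool.Agent.J6H11.Lsk.One

/-!
# The main theorem
-/

set_option autoImplicit false

namespace Pool.Agent.J6H11.Lsk

open Finset
open Pool.Agent.J6H11.Sk3 hiding Prog

theorem values_pos {n : ℕ} {G : Type} [AddCommGroup G] (N : ℕ) (φ : (Fin n → ℤ) →+ G) :
    1 ≤ values N φ := by
  unfold values
  refine (Set.ncard_pos ((box_finite n N).image _)).2 ?_
  exact ⟨φ 0, 0, fun i => by simp, rfl⟩

theorem bi_nonneg (b : Bool) : 0 ≤ bi b := by
  unfold bi; split_ifs <;> norm_num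

/-- the arithmetic at the end -/
theorem endgame {n T m ε A B L C : ℝ} (hn : 1 ≤ n) (hm : 0 ≤ m)
    (hbig : 55296 ≤ n ^ (ε / 2)) (hT1 : 3 * n ^ (2 - ε / 2) ≤ T)
    (hT2 : 4 * m * n ^ (1 - ε / 2) ≤ T) (hC : 0 < C)
    (hmain : C * (T / 4) ≤ A + C * (27648 * m * L)) (hL : 0 ≤ L) (hA : 0 ≤ A)
    (hB : B = A + C * (n * L)) : C * n ^ (2 - ε) ≤ B := by
  by_contra hcon
  push Not at hcon
  have hn0 : 0 < n := by linarith
  have e1 : n ^ (2 - ε / 2) = n ^ (2 - ε) * n ^ (ε / 2) := by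
    rw [← Real.rpow_add hn0]; congr 1; ring
  have e2 : n ^ (1 - ε / 2) = n ^ (1 - ε) * n ^ (ε / 2) := by
    rw [← Real.rpow_add hn0]; congr 1; ring
  have e3 : n ^ (2 - ε) = n * n ^ (1 - ε) := by
    rw [show (2 : ℝ) - ε = 1 + (1 - ε) by ring, Real.rpow_add hn0, Real.rpow_one]
  have p1 : 0 < n ^ (2 - ε) := Real.rpow_pos_of_pos hn0 _
  have p2 : 0 < n ^ (1 - ε) := Real.rpow_pos_of_pos hn0 _
  -- the number of comparisons is small
  have h1 : A < C * n ^ (2 - ε) := by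
    have : 0 ≤ C * (n * L) := by positivity
    linarith
  -- the sketch is small
  have h2 : L < n ^ (1 - ε) := by
    have h3 : C * (n * L) < C * (n * n ^ (1 - ε)) := by
      rw [← e3]; linarith
    exact lt_of_mul_lt_mul_left (lt_of_mul_lt_mul_left h3 hC.le) hn0.le
  have h3 : 3 * 55296 * n ^ (2 - ε) ≤ T := by
    rw [e1] at hT1
    nlinarith
  have h4 : 4 * 55296 * (m * n ^ (1 - ε)) ≤ T := by
    rw [e2] at hT2
    have h5 : m * n ^ (1 - ε) * 55296 ≤ m * n ^ (1 - ε) * n ^ (ε / 2) :=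
      mul_le_mul_of_nonneg_left hbig (by positivity)
    nlinarith
  have h5 : m * L ≤ m * n ^ (1 - ε) := mul_le_mul_of_nonneg_left h2.le hm
  have h6 : 27648 * m * L ≤ T / 8 := by nlinarith
  have h7 : C * (27648 * m * L) ≤ C * (T / 8) := mul_le_mul_of_nonneg_left h6 hC.le
  have h8 : C * (3 * 55296 * n ^ (2 - ε)) ≤ C * T := mul_le_mul_of_nonneg_left h3 hC.le
  have h9 : 0 < C * n ^ (2 - ε) := mul_pos hC p1
  nlinarith

open Classical in
theorem main1 (ε : ℝ) (hε : 0 < ε) (hε1 : ε ≤ 1) : ∃ δ : ℝ, 0 < δ ∧ ∃ n₀ : ℕ,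
    ∀ n N K p : ℕ, n₀ ≤ n → (K : ℝ) ≤ (n : ℝ) ^ δ → 1 ≤ p → (p : ℝ) * (n : ℝ) ^ (1 + ε) ≤ N →
    1 ≤ n ∧ ∃ X : (Fin n → Bool) → Fin n → ℤ, (∀ h, Valid N (X h) ∧ ¬ Solvable (X h)) ∧
      ∀ (Ω : Type) [Fintype Ω] (μ : Ω → ℝ), (∀ ω, 0 ≤ μ ω) → ∑ ω, μ ω = 1 → ∀ P : Ω → Prog n,
      (∀ x, Valid N x →
          2 / 3 ≤ ∑ ω, μ ω * (if (P ω).eval K p x = decide (Solvable x) then 1 else 0)) →
        2 ^ n * (n : ℝ) ^ (2 - ε) ≤ ∑ h, ∑ ω, μ ω * (P ω).cost K p N (X h) := by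
  obtain ⟨δ, hδ, n₀, h⟩ := params (ε / 2) (by positivity) (by linarith)
  refine ⟨δ, hδ, max n₀ ⌈(55296 : ℝ) ^ (2 / ε)⌉₊, fun n N K0 p hn hK0 hp hN => ?_⟩
  have hn1' : (55296 : ℝ) ^ (2 / ε) ≤ n :=
    (Nat.le_ceil _).trans (by exact_mod_cast (le_max_right _ _).trans hn)
  have hn1 : (1 : ℝ) ≤ n := by
    refine le_trans ?_ hn1'
    exact Real.one_le_rpow (by norm_num) (by positivity)
  have hbig : (55296 : ℝ) ≤ (n : ℝ) ^ (ε / 2) := by
    calc (55296 : ℝ) = ((55296 : ℝ) ^ (2 / ε)) ^ (ε / 2) := by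
          rw [← Real.rpow_mul (by norm_num)]
          rw [show 2 / ε * (ε / 2) = 1 by field_simp, Real.rpow_one]
      _ ≤ (n : ℝ) ^ (ε / 2) := Real.rpow_le_rpow (by positivity) hn1' (by positivity)
  obtain ⟨K, m, d, S, τ, H, hKK, hn1N, hT1, hT2⟩ := h n N K0 p ((le_max_left _ _).trans hn) hK0 hp
    ((mul_le_mul_of_nonneg_left (Real.rpow_le_rpow_of_exponent_le hn1 (by linarith))
      (Nat.cast_nonneg _)).trans hN)
  refine ⟨hn1N, ?_⟩
  have hcard : (WW m d S τ).card = n := by rw [card_WW]; exact H.hn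
  let E := (Finset.equivFinOfCardEq hcard).symm
  let e : Fin n → Fin 4 × ℤ := fun i => (E i).1
  have he : ∀ i, e i ∈ WW m d S τ := fun i => (E i).2
  have hei : Function.Injective e := fun i j hij => E.injective (Subtype.ext hij)
  have hes : ∀ v : Fin 4 × ℤ, ∃ i, v ∈ WW m d S τ → e i = v := fun v => by
    by_cases hv : v ∈ WW m d S τ
    · obtain ⟨i, hi⟩ := E.surjective ⟨v, hv⟩
      exact ⟨i, fun _ => by simp only [e, hi]⟩
    · exact ⟨⟨0, hn1N⟩, fun h => absurd h hv⟩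
  choose ix hix using hes
  refine ⟨fun h => XU K m p e (uN h), fun h => ⟨XU_valid H he hei (uN_abs h),
    XU_not H he hei (uN_abs h) (uN_nonneg h)⟩, ?_⟩
  intro Ω _ μ h0 h1 P hcor
  -- the answers for the instances without solution
  have hno : ∑ ω, μ ω * ∑ h, bi ((P ω).eval K0 p (XU K m p e (uN h))) ≤ 2 ^ n * (1 / 3) := by
    have h2 : ∀ h : Cube n, ∑ ω, μ ω * bi ((P ω).eval K0 p (XU K m p e (uN h))) ≤ 1 / 3 := by
      intro h
      have h3 := hcor _ (XU_valid H he hei (uN_abs h))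
      rw [decide_eq_false (XU_not H he hei (uN_abs h) (uN_nonneg h))] at h3
      have h4 : ∑ ω, (μ ω * bi ((P ω).eval K0 p (XU K m p e (uN h))) +
          μ ω * (if (P ω).eval K0 p (XU K m p e (uN h)) = false then (1 : ℝ) else 0)) =
          ∑ ω, μ ω := by
        refine Finset.sum_congr rfl fun ω _ => ?_
        unfold bi
        cases h5 : (P ω).eval K0 p (XU K m p e (uN h)) <;> simp
      rw [Finset.sum_add_distrib, h1] at h4
      linarith
    have h3 : ∑ ω, μ ω * ∑ h, bi ((P ω).eval K0 p (XU K m p e (uN h))) =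
        ∑ h : Cube n, ∑ ω, μ ω * bi ((P ω).eval K0 p (XU K m p e (uN h))) := by
      rw [Finset.sum_comm]
      exact Finset.sum_congr rfl fun ω _ => Finset.mul_sum _ _ _
    rw [h3]
    have h4 : ∑ h : Cube n, ∑ ω, μ ω * bi ((P ω).eval K0 p (XU K m p e (uN h))) ≤
        ∑ _h : Cube n, (1 / 3 : ℝ) := Finset.sum_le_sum fun h _ => h2 h
    refine h4.trans (le_of_eq ?_)
    simp [Cube]
  -- the answers for the instances with a solution
  have hyes : ((TT S τ).card : ℝ) * (2 ^ n * (2 / 3)) ≤ ∑ ω, μ ω * ∑ t ∈ TT S τ, ∑ h,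
      bi ((P ω).eval K0 p
        (XU K m p e (uY (ix (0, t.1)) (ix (1, t.2)) (ix (2, t.1 + t.2)) h))) := by
    have h2 : ∑ ω, μ ω * ∑ t ∈ TT S τ, ∑ h, bi ((P ω).eval K0 p
        (XU K m p e (uY (ix (0, t.1)) (ix (1, t.2)) (ix (2, t.1 + t.2)) h))) =
        ∑ t ∈ TT S τ, ∑ h : Cube n, ∑ ω, μ ω * bi ((P ω).eval K0 p
        (XU K m p e (uY (ix (0, t.1)) (ix (1, t.2)) (ix (2, t.1 + t.2)) h))) := by
      simp only [Finset.mul_sum]
      rw [Finset.sum_comm]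
      refine Finset.sum_congr rfl fun t _ => ?_
      rw [Finset.sum_comm]
    rw [h2, ← nsmul_eq_mul]
    refine Finset.card_nsmul_le_sum _ _ _ fun t ht => ?_
    obtain ⟨m0, m1, m2⟩ := TT_mem (m := m) (d := d) ht
    have hab := ix_ne (fun v hv => hix v hv) m0 m1 (by simp)
    have hac := ix_ne (fun v hv => hix v hv) m0 m2 (by simp)
    have hbc := ix_ne (fun v hv => hix v hv) m1 m2 (by simp)
    have h3 : ∀ h : Cube n, 2 / 3 ≤ ∑ ω, μ ω * bi ((P ω).eval K0 p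
        (XU K m p e (uY (ix (0, t.1)) (ix (1, t.2)) (ix (2, t.1 + t.2)) h))) := by
      intro h
      have h4 := hcor _ (XU_valid H he hei (uY_abs hab hac hbc h))
      rw [decide_eq_true (XU_solvable (fun v hv => hix v hv) ht (uY_a hab hac h) (uY_b hab hbc h)
        (uY_c hac hbc h))] at h4
      unfold bi
      exact h4
    have h4 : ∑ _h : Cube n, (2 / 3 : ℝ) ≤ ∑ h : Cube n, ∑ ω, μ ω * bi ((P ω).eval K0 p
        (XU K m p e (uY (ix (0, t.1)) (ix (1, t.2)) (ix (2, t.1 + t.2)) h))) :=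
      Finset.sum_le_sum fun h _ => h3 h
    refine le_trans (le_of_eq ?_) h4
    simp [Cube]
  -- the inequality for all programs
  have hsum : ∑ ω, μ ω * ∑ t ∈ TT S τ, ∑ h, bi ((P ω).eval K0 p
        (XU K m p e (uY (ix (0, t.1)) (ix (1, t.2)) (ix (2, t.1 + t.2)) h))) ≤
      (TT S τ).card * ∑ ω, μ ω * ∑ h, bi ((P ω).eval K0 p (XU K m p e (uN h))) +
      ∑ ω, μ ω * ∑ h, (((P ω).next ((P ω).φ (XU K m p e (uN h)))).triples K0 p
        (XU K m p e (uN h)) : ℝ) +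
      2 ^ n * ((TT S τ).card / 12 + 27648 * m * ∑ ω, μ ω * Real.log (values N (P ω).φ)) := by
    have h2 : ∀ ω, μ ω * ∑ t ∈ TT S τ, ∑ h, bi ((P ω).eval K0 p
        (XU K m p e (uY (ix (0, t.1)) (ix (1, t.2)) (ix (2, t.1 + t.2)) h))) ≤
        μ ω * ((TT S τ).card * ∑ h, bi ((P ω).eval K0 p (XU K m p e (uN h))) +
      ∑ h, (((P ω).next ((P ω).φ (XU K m p e (uN h)))).triples K0 p (XU K m p e (uN h)) : ℝ) +
      2 ^ n * ((TT S τ).card / 12 + 27648 * m * Real.log (values N (P ω).φ))) := fun ω =>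
      mul_le_mul_of_nonneg_left (main_prog H he hei (fun v hv => hix v hv) hKK (P ω)) (h0 ω)
    refine (Finset.sum_le_sum fun ω _ => h2 ω).trans (le_of_eq ?_)
    have h3 : (2 : ℝ) ^ n * ((TT S τ).card / 12) =
        ∑ ω, μ ω * (2 ^ n * ((TT S τ).card / 12)) := by
      rw [← Finset.sum_mul, h1, one_mul]
    rw [mul_add ((2 : ℝ) ^ n), h3, Finset.mul_sum, Finset.mul_sum, Finset.mul_sum,
      ← Finset.sum_add_distrib, ← Finset.sum_add_distrib, ← Finset.sum_add_distrib]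
    refine Finset.sum_congr rfl fun ω _ => ?_
    ring
  -- the costs
  have hcost : ∑ h : Cube n, ∑ ω, μ ω * (P ω).cost K0 p N (XU K m p e (uN h)) =
      ∑ ω, μ ω * ∑ h, (((P ω).next ((P ω).φ (XU K m p e (uN h)))).triples K0 p
        (XU K m p e (uN h)) : ℝ) +
      2 ^ n * (n * ∑ ω, μ ω * Real.logb 2 (values N (P ω).φ)) := by
    rw [Finset.sum_comm, Finset.mul_sum, Finset.mul_sum, ← Finset.sum_add_distrib]
    refine Finset.sum_congr rfl fun ω _ => ?_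
    rw [← Finset.mul_sum]
    unfold Prog.cost
    rw [Finset.sum_add_distrib]
    simp only [Finset.sum_const, Finset.card_univ, nsmul_eq_mul]
    have : (Fintype.card (Cube n) : ℝ) = 2 ^ n := by simp [Cube]
    rw [this]
    ring
  have hlog : ∑ ω, μ ω * Real.log (values N (P ω).φ) ≤
      ∑ ω, μ ω * Real.logb 2 (values N (P ω).φ) := by
    refine Finset.sum_le_sum fun ω _ => mul_le_mul_of_nonneg_left ?_ (h0 ω)
    have h2 : (1 : ℝ) ≤ values N (P ω).φ := by exact_mod_cast values_pos N (P ω).φ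
    have h3 : 0 ≤ Real.log (values N (P ω).φ) := Real.log_nonneg h2
    have h4 : Real.log 2 ≤ 1 := by
      have := Real.log_two_lt_d9
      linarith
    have h5 : 0 < Real.log 2 := Real.log_pos (by norm_num)
    unfold Real.logb
    rw [le_div_iff₀ h5]
    nlinarith
  have hlog0 : 0 ≤ ∑ ω, μ ω * Real.logb 2 (values N (P ω).φ) := by
    refine Finset.sum_nonneg fun ω _ => mul_nonneg (h0 ω) ?_
    exact Real.logb_nonneg (by norm_num) (by exact_mod_cast values_pos N (P ω).φ)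
  have hlg1 : 1 ≤ Real.logb 2 ((n : ℝ) + 1) := by
    rw [Real.le_logb_iff_rpow_le (by norm_num) (by positivity), Real.rpow_one]
    linarith
  have hm0 : (0 : ℝ) ≤ m := Nat.cast_nonneg _
  refine endgame (T := (TT S τ).card) (m := m) (C := (2 : ℝ) ^ n)
    (A := ∑ ω, μ ω * ∑ h, (((P ω).next ((P ω).φ (XU K m p e (uN h)))).triples K0 p
        (XU K m p e (uN h)) : ℝ))
    (L := ∑ ω, μ ω * Real.logb 2 (values N (P ω).φ)) hn1 hm0 hbig ?_ ?_ (by positivity) ?_ hlog0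
    ?_ hcost
  · exact hT1
  · refine le_trans ?_ hT2
    have h2 : (n : ℝ) ^ (1 - ε / 2) ≤ ((n : ℝ) ^ (1 - ε / 2) + 1) * Real.logb 2 (n + 1) := by
      have h3 : 0 ≤ (n : ℝ) ^ (1 - ε / 2) := by positivity
      nlinarith
    exact mul_le_mul_of_nonneg_left h2 (by positivity)
  · have h2 : (2 : ℝ) ^ n * (27648 * m * ∑ ω, μ ω * Real.log (values N (P ω).φ)) ≤
        2 ^ n * (27648 * m * ∑ ω, μ ω * Real.logb 2 (values N (P ω).φ)) := by
      refine mul_le_mul_of_nonneg_left ?_ (by positivity)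
      exact mul_le_mul_of_nonneg_left hlog (by positivity)
    have h3 : ((TT S τ).card : ℝ) * ∑ ω, μ ω * ∑ h,
        bi ((P ω).eval K0 p (XU K m p e (uN h))) ≤ (TT S τ).card * (2 ^ n * (1 / 3)) :=
      mul_le_mul_of_nonneg_left hno (Nat.cast_nonneg _)
    have h4 := hyes.trans hsum
    linarith
  · exact Finset.sum_nonneg fun ω _ => mul_nonneg (h0 ω)
      (Finset.sum_nonneg fun h _ => Nat.cast_nonneg _)

open Classical in
theorem main (ε : ℝ) (hε : 0 < ε) : ∃ δ : ℝ, 0 < δ ∧ ∃ n₀ : ℕ,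
    ∀ n N K p : ℕ, n₀ ≤ n → (K : ℝ) ≤ (n : ℝ) ^ δ → 1 ≤ p → (p : ℝ) * (n : ℝ) ^ (1 + ε) ≤ N →
    ∃ X : (Fin n → Bool) → Fin n → ℤ, (∀ h, Valid N (X h) ∧ ¬ Solvable (X h)) ∧
      ∀ (Ω : Type) [Fintype Ω] (μ : Ω → ℝ), (∀ ω, 0 ≤ μ ω) → ∑ ω, μ ω = 1 → ∀ P : Ω → Prog n,
      (∀ x, Valid N x →
          2 / 3 ≤ ∑ ω, μ ω * (if (P ω).eval K p x = decide (Solvable x) then 1 else 0)) →
        2 ^ n * (n : ℝ) ^ (2 - ε) ≤ ∑ h, ∑ ω, μ ω * (P ω).cost K p N (X h) := by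
  obtain ⟨δ, hδ, n₀, h⟩ := main1 (min ε 1) (lt_min hε one_pos) (min_le_right _ _)
  refine ⟨δ, hδ, max n₀ 1, fun n N K p hn hK hp hN => ?_⟩
  have hn0 : n₀ ≤ n := (le_max_left _ _).trans hn
  have hn1 : (1 : ℝ) ≤ n := by exact_mod_cast (le_max_right _ _).trans hn
  have h1 : (n : ℝ) ^ (1 + min ε 1) ≤ (n : ℝ) ^ (1 + ε) :=
    Real.rpow_le_rpow_of_exponent_le hn1 (by linarith [min_le_left ε 1])
  have h2 : (n : ℝ) ^ (2 - ε) ≤ (n : ℝ) ^ (2 - min ε 1) :=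
    Real.rpow_le_rpow_of_exponent_le hn1 (by linarith [min_le_left ε 1])
  obtain ⟨-, X, hX, h3⟩ := h n N K p hn0 hK hp
    ((mul_le_mul_of_nonneg_left h1 (Nat.cast_nonneg _)).trans hN)
  exact ⟨X, hX, fun Ω _ μ h0 hs P hc =>
    (mul_le_mul_of_nonneg_left h2 (by positivity)).trans (h3 Ω μ h0 hs P hc)⟩

end Pool.Agent.J6H11.Lsk
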