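import Pool.Agent.J6H11.Lsk.Run

/-!
# The inequality for one program
-/

set_option autoImplicit false

namespace Pool.Agent.J6H11.Lsk

open Finset
open Pool.Agent.J6H11.Sk3 hiding Prog

variable {n N K m d p : ℕ} {S : Finset ℤ} {τ : ℤ}

/-- the changes without a solution -/
def uN (h : Cube n) : Fin n → ℤ := fun a => if h a then 1 else 0

/-- the changes with a planted solution -/
def uY (a b c : Fin n) (h : Cube n) : Fin n → ℤ := fun i =>
  uN (base0 a b c h) i - (if i = a then 1 else 0) - (if i = b then 1 else 0) -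
    (if i = c then 1 else 0)

theorem uN_abs (h : Cube n) (a : Fin n) : |uN h a| ≤ 1 := by
  unfold uN
  split_ifs <;> simp

theorem uN_nonneg (h : Cube n) (a : Fin n) : 0 ≤ uN h a := by
  unfold uN
  split_ifs <;> simp

theorem uY_a {a b c : Fin n} (hab : a ≠ b) (hac : a ≠ c) (h : Cube n) : uY a b c h a = -1 := by
  simp [uY, uN, base0, hab, hac]

theorem uY_b {a b c : Fin n} (hab : a ≠ b) (hbc : b ≠ c) (h : Cube n) : uY a b c h b = -1 := by
  simp [uY, uN, base0, hab.symm, hbc]

theorem uY_c {a b c : Fin n} (hac : a ≠ c) (hbc : b ≠ c) (h : Cube n) : uY a b c h c = -1 := by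
  simp [uY, uN, base0, hac.symm, hbc.symm]

theorem uY_other {a b c i : Fin n} (ha : i ≠ a) (hb : i ≠ b) (hc : i ≠ c) (h : Cube n) :
    uY a b c h i = uN h i := by
  simp [uY, uN, base0, ha, hb, hc]

theorem uY_abs {a b c : Fin n} (hab : a ≠ b) (hac : a ≠ c) (hbc : b ≠ c) (h : Cube n)
    (i : Fin n) : |uY a b c h i| ≤ 1 := by
  by_cases h1 : i = a
  · subst h1; rw [uY_a hab hac]; simp
  by_cases h2 : i = b
  · subst h2; rw [uY_b hab hbc]; simp
  by_cases h3 : i = c
  · subst h3; rw [uY_c hac hbc]; simp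
  rw [uY_other h1 h2 h3]
  exact uN_abs h i

theorem uY_neg {a b c i : Fin n} {h : Cube n} (hi : uY a b c h i = -1) :
    i = a ∨ i = b ∨ i = c := by
  by_contra hcon
  push Not at hcon
  rw [uY_other hcon.1 hcon.2.1 hcon.2.2] at hi
  have := uN_nonneg h i
  omega

section

variable {G : Type} [AddCommGroup G]

/-- the change of the sketch by one coordinate -/
def gv (p : ℕ) (e : Fin n → Fin 4 × ℤ) (φ : (Fin n → ℤ) →+ G) (a : Fin n) : G :=
  φ (Pi.single a ((p : ℤ) * sg (e a).1))

theorem phi_XU (e : Fin n → Fin 4 × ℤ) (φ : (Fin n → ℤ) →+ G) (u : Fin n → ℤ) :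
    φ (XU K m p e u) = φ (X0 K m p e) + ∑ a, u a • gv p e φ a := by
  have h1 : XU K m p e u = X0 K m p e + ∑ a, Pi.single a (u a * ((p : ℤ) * sg (e a).1)) := by
    rw [Finset.univ_sum_single (fun a => u a * ((p : ℤ) * sg (e a).1))]
    funext a
    simp only [XU, X0, Pi.add_apply]
    ring
  rw [h1, map_add, map_sum]
  congr 1
  refine Finset.sum_congr rfl fun a _ => ?_
  unfold gv
  rw [← map_zsmul]
  congr 1
  funext i
  simp only [Pi.single_apply, Pi.smul_apply, smul_eq_mul]
  split_ifs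
  · rfl
  · rw [mul_zero]

theorem phi_N (e : Fin n → Fin 4 × ℤ) (φ : (Fin n → ℤ) →+ G) (h : Cube n) :
    φ (XU K m p e (uN h)) = lin (φ (X0 K m p e)) (gv p e φ) h := by
  rw [phi_XU]
  unfold lin
  congr 1
  refine Finset.sum_congr rfl fun a _ => ?_
  unfold uN
  split_ifs
  · rw [one_smul]
  · rw [zero_smul]

theorem phi_Y (e : Fin n → Fin 4 × ℤ) (φ : (Fin n → ℤ) →+ G) (a b c : Fin n) (h : Cube n) :
    φ (XU K m p e (uY a b c h)) = lin (φ (X0 K m p e)) (gv p e φ) (base0 a b c h) +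
      (-gv p e φ a - gv p e φ b - gv p e φ c) := by
  rw [← phi_N, phi_XU, phi_XU]
  have h1 : ∑ i, uY a b c h i • gv p e φ i = ∑ i, uN (base0 a b c h) i • gv p e φ i -
      ∑ i, (if i = a then (1 : ℤ) else 0) • gv p e φ i -
      ∑ i, (if i = b then (1 : ℤ) else 0) • gv p e φ i -
      ∑ i, (if i = c then (1 : ℤ) else 0) • gv p e φ i := by
    rw [← Finset.sum_sub_distrib, ← Finset.sum_sub_distrib, ← Finset.sum_sub_distrib]
    refine Finset.sum_congr rfl fun i _ => ?_
    unfold uY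
    rw [sub_smul, sub_smul, sub_smul]
  have h2 : ∀ a : Fin n, ∑ i, (if i = a then (1 : ℤ) else 0) • gv p e φ i = gv p e φ a := by
    intro a
    simp [ite_smul]
  rw [h1, h2, h2, h2]
  abel

end

/-- the sum of the influences of all possible solutions -/
theorem infl_total (H : Setup n N K m d p S τ) {G : Type} [DecidableEq G] (W : Cube n → G)
    (a b c : ℤ × ℤ → Fin n)
    (hab : ∀ t ∈ TT S τ, a t ≠ b t) (hac : ∀ t ∈ TT S τ, a t ≠ c t)
    (hd : ∀ t ∈ TT S τ, ∀ t' ∈ TT S τ, t ≠ t' → t.1 - t.2 = t'.1 - t'.2 →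
      a t ≠ a t' ∧ a t ≠ b t' ∧ a t ≠ c t') {r : ℝ} (hr : 0 < r) :
    ∑ t ∈ TT S τ, infl W (a t) (b t) (c t) ≤
      2 ^ n * (r / 2 * (TT S τ).card + 2 * m * Real.log (Finset.univ.image W).card / r) := by
  have hm1 := H.hm1
  have hmaps : ∀ t ∈ TT S τ, t.1 - t.2 ∈ Finset.Ioo (-(m : ℤ)) m := by
    intro t ht
    have h1 := mem_TT.1 ht
    have h2 := H.hm _ h1.1
    have h3 := H.hm _ h1.2.1
    rw [Finset.mem_Ioo]
    omega
  have hlog : 0 ≤ Real.log (Finset.univ.image W).card := Real.log_natCast_nonneg _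
  rw [← Finset.sum_fiberwise_of_maps_to hmaps]
  have h1 : ∀ s ∈ Finset.Ioo (-(m : ℤ)) m,
      ∑ t ∈ (TT S τ).filter (fun t => t.1 - t.2 = s), infl W (a t) (b t) (c t) ≤
      2 ^ n * (r / 2 * ((TT S τ).filter (fun t => t.1 - t.2 = s)).card +
        Real.log (Finset.univ.image W).card / r) := by
    intro s _
    refine infl_sum_le W _ a b c (fun t ht => hab t (Finset.mem_filter.1 ht).1)
      (fun t ht => hac t (Finset.mem_filter.1 ht).1) ?_ hr
    intro t ht t' ht' hne
    obtain ⟨h2, h3⟩ := Finset.mem_filter.1 ht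
    obtain ⟨h4, h5⟩ := Finset.mem_filter.1 ht'
    exact hd t h2 t' h4 hne (h3.trans h5.symm)
  refine (Finset.sum_le_sum h1).trans ?_
  rw [← Finset.mul_sum, Finset.sum_add_distrib, ← Finset.mul_sum]
  have h2 : ∑ s ∈ Finset.Ioo (-(m : ℤ)) m,
      (((TT S τ).filter (fun t => t.1 - t.2 = s)).card : ℝ) = (TT S τ).card := by
    rw [Finset.card_eq_sum_card_fiberwise hmaps]
    push_cast
    rfl
  rw [h2]
  simp only [Finset.sum_const, nsmul_eq_mul]
  have h3 : ((Finset.Ioo (-(m : ℤ)) m).card : ℝ) ≤ 2 * m := by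
    have : (Finset.Ioo (-(m : ℤ)) m).card ≤ 2 * m := by
      rw [Int.card_Ioo]
      omega
    exact_mod_cast this
  refine mul_le_mul_of_nonneg_left ?_ (by positivity)
  have h4 : ((Finset.Ioo (-(m : ℤ)) m).card : ℝ) * (Real.log (Finset.univ.image W).card / r) ≤
      2 * m * (Real.log (Finset.univ.image W).card / r) :=
    mul_le_mul_of_nonneg_right h3 (by positivity)
  have h5 : 2 * (m : ℝ) * Real.log (Finset.univ.image W).card / r =
      2 * m * (Real.log (Finset.univ.image W).card / r) := by ring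
  rw [h5]
  linarith

/-- the indicator of a truth value -/
def bi (b : Bool) : ℝ := if b = true then 1 else 0

open Classical in
/-- The inequality for one program. -/
theorem main_prog (H : Setup n N K m d p S τ) {e : Fin n → Fin 4 × ℤ}
    (he : ∀ i, e i ∈ WW m d S τ) (hei : Function.Injective e) {ix : Fin 4 × ℤ → Fin n}
    (hix : ∀ v ∈ WW m d S τ, e (ix v) = v) {K0 : ℕ} (hK0 : K0 ≤ K) (P : Prog n) :
    ∑ t ∈ TT S τ, ∑ h, bi (P.eval K0 p
        (XU K m p e (uY (ix (0, t.1)) (ix (1, t.2)) (ix (2, t.1 + t.2)) h))) ≤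
      (TT S τ).card * ∑ h, bi (P.eval K0 p (XU K m p e (uN h))) +
      ∑ h, ((P.next (P.φ (XU K m p e (uN h)))).triples K0 p (XU K m p e (uN h)) : ℝ) +
      2 ^ n * ((TT S τ).card / 12 + 27648 * m * Real.log (values N P.φ)) := by
  obtain ⟨W, hW⟩ : ∃ W : Cube n → P.G, W = lin (P.φ (X0 K m p e)) (gv p e P.φ) := ⟨_, rfl⟩
  obtain ⟨tq, htq⟩ : ∃ tq : P.G → ℤ × ℤ → Prop, tq = fun g t =>
    ∃ q ∈ (P.next g).tri K0 p (X0 K m p e), s3 (e q.1) (e q.2.1) (e q.2.2) = ts t := ⟨_, rfl⟩
  have hNo : ∀ h, P.eval K0 p (XU K m p e (uN h)) = (P.next (W h)).eval K0 p (X0 K m p e) ∧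
      (P.next (P.φ (XU K m p e (uN h)))).triples K0 p (XU K m p e (uN h)) =
        (P.next (W h)).triples K0 p (X0 K m p e) := by
    intro h
    have h1 := (P.next (P.φ (XU K m p e (uN h)))).congr K0 p (X0 K m p e) (XU K m p e (uN h))
      (fun i => XU_digits H hei (uN_abs h) i) (fun i j => XU_pair H he hei (uN_abs h) hK0 i j)
      (fun q _ => XU_signs H he hei hix (uN_abs h) hK0 _ _ _ (by
        intro t _ h2
        have := uN_nonneg h (ix (0, t.1))
        omega))
    rw [phi_N, ← hW] at h1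
    refine ⟨?_, ?_⟩
    · unfold Prog.eval
      rw [phi_N, ← hW]
      exact h1.1
    · rw [phi_N, ← hW]
      exact h1.2
  have hblock : ∀ t ∈ TT S τ, ix (0, t.1) ≠ ix (1, t.2) ∧ ix (0, t.1) ≠ ix (2, t.1 + t.2) ∧
      ix (1, t.2) ≠ ix (2, t.1 + t.2) := by
    intro t ht
    obtain ⟨m0, m1, m2⟩ := TT_mem (m := m) (d := d) ht
    exact ⟨ix_ne hix m0 m1 (by simp), ix_ne hix m0 m2 (by simp), ix_ne hix m1 m2 (by simp)⟩
  have hYes : ∀ t ∈ TT S τ, ∀ h, ¬ tq (W (base0 (ix (0, t.1)) (ix (1, t.2)) (ix (2, t.1 + t.2)) h) +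
      (-gv p e P.φ (ix (0, t.1)) - gv p e P.φ (ix (1, t.2)) - gv p e P.φ (ix (2, t.1 + t.2)))) t →
      P.eval K0 p (XU K m p e (uY (ix (0, t.1)) (ix (1, t.2)) (ix (2, t.1 + t.2)) h)) =
      (P.next (W (base0 (ix (0, t.1)) (ix (1, t.2)) (ix (2, t.1 + t.2)) h) +
      (-gv p e P.φ (ix (0, t.1)) - gv p e P.φ (ix (1, t.2)) -
        gv p e P.φ (ix (2, t.1 + t.2))))).eval K0 p (X0 K m p e) := by
    intro t ht h hn
    obtain ⟨hab, hac, hbc⟩ := hblock t ht
    obtain ⟨m0, m1, m2⟩ := TT_mem (m := m) (d := d) ht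
    have hu := uY_abs hab hac hbc h
    have h1 := (P.next (P.φ (XU K m p e (uY (ix (0, t.1)) (ix (1, t.2)) (ix (2, t.1 + t.2))
      h)))).congr K0 p (X0 K m p e) (XU K m p e (uY (ix (0, t.1)) (ix (1, t.2))
      (ix (2, t.1 + t.2)) h)) (fun i => XU_digits H hei hu i)
      (fun i j => XU_pair H he hei hu hK0 i j) (fun q hq => XU_signs H he hei hix hu hK0 _ _ _ (by
        intro t' ht' e0 e1 _
        obtain ⟨n0, n1, n2⟩ := TT_mem (m := m) (d := d) ht'
        have f0 : t'.1 = t.1 := by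
          rcases uY_neg e0 with h2 | h2 | h2
          · have h3 := congrArg e h2
            rw [hix _ n0, hix _ m0] at h3
            simpa using h3
          · have h3 := congrArg e h2
            rw [hix _ n0, hix _ m1] at h3
            simp at h3
          · have h3 := congrArg e h2
            rw [hix _ n0, hix _ m2] at h3
            simp at h3
        have f1 : t'.2 = t.2 := by
          rcases uY_neg e1 with h2 | h2 | h2
          · have h3 := congrArg e h2
            rw [hix _ n1, hix _ m0] at h3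
            simp at h3
          · have h3 := congrArg e h2
            rw [hix _ n1, hix _ m1] at h3
            simpa using h3
          · have h3 := congrArg e h2
            rw [hix _ n1, hix _ m2] at h3
            simp at h3
        have : t' = t := Prod.ext f0 f1
        subst this
        intro h4
        apply hn
        rw [htq]
        rw [phi_Y, ← hW] at hq
        exact ⟨q, hq, h4⟩))
    unfold Prog.eval
    rw [phi_Y, ← hW] at h1 ⊢
    exact h1.1
  -- one possible solution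
  have key : ∀ t ∈ TT S τ, ∑ h, bi (P.eval K0 p
        (XU K m p e (uY (ix (0, t.1)) (ix (1, t.2)) (ix (2, t.1 + t.2)) h))) ≤
      ∑ h, bi (P.eval K0 p (XU K m p e (uN h))) + ∑ h, (if tq (W h) t then (1 : ℝ) else 0) +
      16 * (infl W (ix (0, t.1)) (ix (1, t.2)) (ix (2, t.1 + t.2)) +
        infl W (ix (1, t.2)) (ix (0, t.1)) (ix (2, t.1 + t.2)) +
        infl W (ix (2, t.1 + t.2)) (ix (0, t.1)) (ix (1, t.2))) := by
    intro t ht
    obtain ⟨hab, hac, hbc⟩ := hblock t ht
    obtain ⟨ψ, hψ⟩ : ∃ ψ : P.G → ℝ, ψ = fun g =>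
      if (P.next g).eval K0 p (X0 K m p e) = true ∨ tq g t then 1 else 0 := ⟨_, rfl⟩
    have hψ1 : ∀ g, |ψ g| ≤ 1 := by
      intro g
      rw [hψ]
      simp only
      split_ifs <;> simp
    have h1 := planted_le (P.φ (X0 K m p e)) (gv p e P.φ) hab hac hbc ψ hψ1
    rw [← hW] at h1
    have h2 : ∑ h, bi (P.eval K0 p
        (XU K m p e (uY (ix (0, t.1)) (ix (1, t.2)) (ix (2, t.1 + t.2)) h))) ≤
        ∑ h, ψ (W (base0 (ix (0, t.1)) (ix (1, t.2)) (ix (2, t.1 + t.2)) h) +
          (-gv p e P.φ (ix (0, t.1)) - gv p e P.φ (ix (1, t.2)) -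
            gv p e P.φ (ix (2, t.1 + t.2)))) := by
      refine Finset.sum_le_sum fun h _ => ?_
      rw [hψ]
      simp only
      split_ifs with h3
      · unfold bi
        split_ifs <;> norm_num
      · push Not at h3
        rw [hYes t ht h h3.2]
        unfold bi
        rw [if_neg h3.1]
    have h3 : ∑ h, ψ (W h) ≤ ∑ h, bi (P.eval K0 p (XU K m p e (uN h))) +
        ∑ h, (if tq (W h) t then (1 : ℝ) else 0) := by
      rw [← Finset.sum_add_distrib]
      refine Finset.sum_le_sum fun h _ => ?_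
      rw [hψ, (hNo h).1]
      unfold bi
      simp only
      by_cases h4 : (P.next (W h)).eval K0 p (X0 K m p e) = true <;>
        by_cases h5 : tq (W h) t <;> simp [h4, h5]
    have h4 := (abs_le.1 h1).1
    linarith
  refine (Finset.sum_le_sum key).trans ?_
  rw [Finset.sum_add_distrib, Finset.sum_add_distrib, ← Finset.mul_sum, Finset.sum_add_distrib,
    Finset.sum_add_distrib]
  simp only [Finset.sum_const, nsmul_eq_mul]
  -- the touched solutions
  have ht1 : ∑ t ∈ TT S τ, ∑ h, (if tq (W h) t then (1 : ℝ) else 0) ≤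
      ∑ h, ((P.next (P.φ (XU K m p e (uN h)))).triples K0 p (XU K m p e (uN h)) : ℝ) := by
    rw [Finset.sum_comm]
    refine Finset.sum_le_sum fun h _ => ?_
    rw [(hNo h).2, Finset.sum_boole]
    have h1 := card_filter_list (TT S τ)
      (fun (q : Fin n × Fin n × Fin n) t => s3 (e q.1) (e q.2.1) (e q.2.2) = ts t) 1 (by
        intro q
        rw [Finset.card_le_one]
        intro t ht t' ht'
        exact ts_inj ((Finset.mem_filter.1 ht).2.symm.trans (Finset.mem_filter.1 ht').2))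
      ((P.next (W h)).tri K0 p (X0 K m p e))
    rw [Tree.length_tri, mul_one] at h1
    have h2 : (TT S τ).filter (fun t => tq (W h) t) = (TT S τ).filter (fun t =>
        ∃ q ∈ (P.next (W h)).tri K0 p (X0 K m p e), s3 (e q.1) (e q.2.1) (e q.2.2) = ts t) :=
      Finset.filter_congr fun t _ => by rw [htq]
    rw [h2]
    exact_mod_cast h1
  -- the influences
  have hr : (0 : ℝ) < 1 / 288 := by norm_num
  have i1 := infl_total H W (fun t => ix (0, t.1)) (fun t => ix (1, t.2))
    (fun t => ix (2, t.1 + t.2)) (fun t ht => (hblock t ht).1) (fun t ht => (hblock t ht).2.1) (by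
      intro t ht t' ht' hne hl
      obtain ⟨m0, m1, m2⟩ := TT_mem (m := m) (d := d) ht
      obtain ⟨n0, n1, n2⟩ := TT_mem (m := m) (d := d) ht'
      refine ⟨ix_ne hix m0 n0 ?_, ix_ne hix m0 n1 (by simp), ix_ne hix m0 n2 (by simp)⟩
      intro h1
      have h2 : t.1 = t'.1 := by simpa using h1
      exact hne (Prod.ext h2 (by omega))) hr
  have i2 := infl_total H W (fun t => ix (1, t.2)) (fun t => ix (0, t.1))
    (fun t => ix (2, t.1 + t.2)) (fun t ht => (hblock t ht).1.symm)
    (fun t ht => (hblock t ht).2.2) (by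
      intro t ht t' ht' hne hl
      obtain ⟨m0, m1, m2⟩ := TT_mem (m := m) (d := d) ht
      obtain ⟨n0, n1, n2⟩ := TT_mem (m := m) (d := d) ht'
      refine ⟨ix_ne hix m1 n1 ?_, ix_ne hix m1 n0 (by simp), ix_ne hix m1 n2 (by simp)⟩
      intro h1
      have h2 : t.2 = t'.2 := by simpa using h1
      exact hne (Prod.ext (by omega) h2)) hr
  have i3 := infl_total H W (fun t => ix (2, t.1 + t.2)) (fun t => ix (0, t.1))
    (fun t => ix (1, t.2)) (fun t ht => (hblock t ht).2.1.symm)
    (fun t ht => (hblock t ht).2.2.symm) (by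
      intro t ht t' ht' hne hl
      obtain ⟨m0, m1, m2⟩ := TT_mem (m := m) (d := d) ht
      obtain ⟨n0, n1, n2⟩ := TT_mem (m := m) (d := d) ht'
      refine ⟨ix_ne hix m2 n2 ?_, ix_ne hix m2 n0 (by simp), ix_ne hix m2 n1 (by simp)⟩
      intro h1
      have h2 : t.1 + t.2 = t'.1 + t'.2 := by simpa using h1
      exact hne (Prod.ext (by omega) (by omega))) hr
  have hVle : (Finset.univ.image W).card ≤ values N P.φ := by
    unfold values
    rw [← Set.ncard_coe_finset]
    refine Set.ncard_le_ncard ?_ ((box_finite n N).image _)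
    intro g hg
    obtain ⟨h, _, rfl⟩ := Finset.mem_image.1 (Finset.mem_coe.1 hg)
    refine ⟨XU K m p e (uN h), (XU_valid H he hei (uN_abs h)).2, ?_⟩
    rw [phi_N, hW]
  have hVpos : 0 < (Finset.univ.image W).card :=
    (Finset.univ_nonempty.image W).card_pos
  have hlog : Real.log (Finset.univ.image W).card ≤ Real.log (values N P.φ) :=
    Real.log_le_log (by exact_mod_cast hVpos) (by exact_mod_cast hVle)
  have hm0 : (0 : ℝ) ≤ m := Nat.cast_nonneg _
  have hlog' : 2 ^ n * (1 / 288 / 2 * ((TT S τ).card : ℝ) + 2 * m *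
      Real.log (Finset.univ.image W).card / (1 / 288)) ≤
      2 ^ n * (((TT S τ).card : ℝ) / 576 + 576 * m * Real.log (values N P.φ)) := by
    refine mul_le_mul_of_nonneg_left ?_ (by positivity)
    have h1 : (m : ℝ) * Real.log (Finset.univ.image W).card ≤ m * Real.log (values N P.φ) :=
      mul_le_mul_of_nonneg_left hlog hm0
    linarith
  have i1' := i1.trans hlog'
  have i2' := i2.trans hlog'
  have i3' := i3.trans hlog'
  have e1 : (2 : ℝ) ^ n * (((TT S τ).card : ℝ) / 12 + 27648 * m * Real.log (values N P.φ)) =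
      16 * (3 * (2 ^ n * (((TT S τ).card : ℝ) / 576 + 576 * m * Real.log (values N P.φ)))) := by
    ring
  rw [e1]
  linarith

end Pool.Agent.J6H11.Lsk
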