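import Pool.Agent.J6H11.Sk3.Def

/-!
# Programs with a linear sketch and comparisons for 3SUM: definitions

`Valid`, `Solvable`, `signs` and `values` are those of `Pool.Agent.J6H11.Sk3.Def`.
-/

set_option autoImplicit false

namespace Pool.Agent.J6H11.Lsk

open Pool.Agent.J6H11.Sk3 (signs values)

/-- Adaptive comparison programs for the input `x 0, …, x (n - 1)` (decision trees of arbitrary shape
and size). After each query `next` maps the answer to the rest of the program; the answers are

* `digits i`: `x i % p` and `x i / (4 * p)`, that is, all digits of `x i` apart from a factor `4`,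
* `pair i j`: the signs of all `α x i + β x j`, `|α|, |β| ≤ K`,
* `triple i j k`: the signs of all `α x i + β x j + γ x k`, `|α|, |β|, |γ| ≤ K`. -/
inductive Tree (n : ℕ) : Type
  | answer (b : Bool) : Tree n
  | digits (i : Fin n) (next : ℤ → ℤ → Tree n) : Tree n
  | pair (i j : Fin n) (next : (ℤ → ℤ → ℤ → SignType) → Tree n) : Tree n
  | triple (i j k : Fin n) (next : (ℤ → ℤ → ℤ → SignType) → Tree n) : Tree n

namespace Tree

variable {n : ℕ}

/-- The answer of the program for the input `x`. -/
noncomputable def eval (K p : ℕ) (x : Fin n → ℤ) : Tree n → Bool
  | answer b => b
  | digits i next => (next (x i % p) (x i / (4 * p))).eval K p x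
  | pair i j next => (next (signs K (x i) (x j) 0)).eval K p x
  | triple i j k next => (next (signs K (x i) (x j) (x k))).eval K p x

/-- The number of queries `triple` for the input `x`. -/
noncomputable def triples (K p : ℕ) (x : Fin n → ℤ) : Tree n → ℕ
  | answer _ => 0
  | digits i next => (next (x i % p) (x i / (4 * p))).triples K p x
  | pair i j next => (next (signs K (x i) (x j) 0)).triples K p x
  | triple i j k next => (next (signs K (x i) (x j) (x k))).triples K p x + 1

end Tree

/-- A linear sketch and comparisons: the program first gets `φ x`, where `φ` is an arbitrary
homomorphism from `ℤ ^ n` to an abelian group `G`, and then runs a comparison program that depends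
on `φ x`. -/
structure Prog (n : ℕ) : Type 1 where
  /-- the group of the values of the sketch -/
  G : Type
  /-- `G` is an abelian group -/
  [group : AddCommGroup G]
  /-- the sketch -/
  φ : (Fin n → ℤ) →+ G
  /-- the comparison program for each value of the sketch -/
  next : G → Tree n

attribute [instance] Prog.group

namespace Prog

variable {n : ℕ}

/-- The answer of the program for the input `x`. -/
noncomputable def eval (K p : ℕ) (x : Fin n → ℤ) (P : Prog n) : Bool :=
  (P.next (P.φ x)).eval K p x

/-- The number of queries `triple`, and `n` times the binary logarithm of the number of values of the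
sketch for numbers between `- N` and `N`. -/
noncomputable def cost (K p N : ℕ) (x : Fin n → ℤ) (P : Prog n) : ℝ :=
  (P.next (P.φ x)).triples K p x + n * Real.logb 2 (values N P.φ)

end Prog

end Pool.Agent.J6H11.Lsk
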