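import Pool.Agent.J6H11.Sk3.Num
import Pool.Agent.J6H11.Lsk.Def

/-!
# The instances
-/

set_option autoImplicit false

namespace Pool.Agent.J6H11.Lsk

open Finset
open Pool.Agent.J6H11.Sk3 hiding Prog

/-- vanishing forms vanish for all changes -/
theorem formal' {K m d : ℕ} {S : Finset ℤ} {τ : ℤ} (hS : Free K S) (f : Fin 4 × ℤ → ℤ)
    (hf : ∀ k, f (3, k) = 0)
    {v1 v2 v3 : Fin 4 × ℤ} (h1 : v1 ∈ WW m d S τ) (h2 : v2 ∈ WW m d S τ) (h3 : v3 ∈ WW m d S τ)
    {α β γ : ℤ} (hα : |α| ≤ K) (hβ : |β| ≤ K) (hγ : |γ| ≤ K)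
    (hcs : ∀ c, cs c v1.1 v2.1 v3.1 α β γ = 0) (hk : α * v1.2 + β * v2.2 + γ * v3.2 = 0) :
    α * f v1 + β * f v2 + γ * f v3 = 0 := by
  obtain ⟨c1, k1⟩ := v1
  obtain ⟨c2, k2⟩ := v2
  obtain ⟨c3, k3⟩ := v3
  simp only at hcs hk
  have two : ∀ (c : Fin 4) (x y : ℤ) (α β : ℤ), α + β = 0 → α * x + β * y = 0 →
      α * f (c, x) + β * f (c, y) = 0 := by
    intro c x y α β h0 h1
    have h2 : β = -α := by omega
    subst h2
    have h3 : α * (x - y) = 0 := by linear_combination h1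
    rcases mul_eq_zero.1 h3 with h4 | h4
    · subst h4; ring
    · have : x = y := by omega
      subst this
      ring
  by_cases h12 : c1 = c2
  · subst h12
    by_cases h13 : c1 = c3
    · subst h13
      have h0 := hcs c1
      simp only [cs, if_true] at h0
      rw [mem_WW] at h1 h2 h3
      rcases h1 with h1 | h1 | h1 | h1
      · have e := h1.1
        simp only at e
        subst e
        have h1' : k1 ∈ S := h1.2
        have h2' : k2 ∈ S := by simpa using h2
        have h3' : k3 ∈ S := by simpa using h3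
        exact cancel3 hS h1' h2' h3' h0 hk hα hβ hγ (fun k => f (0, k))
      · have e := h1.1
        simp only at e
        subst e
        have h1' : k1 ∈ S := h1.2
        have h2' : k2 ∈ S := by simpa using h2
        have h3' : k3 ∈ S := by simpa using h3
        exact cancel3 hS h1' h2' h3' h0 hk hα hβ hγ (fun k => f (1, k))
      · have e := h1.1
        simp only at e
        subst e
        have h1' : k1 - τ ∈ S := h1.2
        have h2' : k2 - τ ∈ S := by simpa using h2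
        have h3' : k3 - τ ∈ S := by simpa using h3
        have := cancel3 hS h1' h2' h3' h0 (by linear_combination hk - τ * h0) hα hβ hγ
          (fun k => f (2, k + τ))
        simpa using this
      · have e := h1.1
        simp only at e
        subst e
        simp [hf]
    · have h0 := hcs c1
      have h0' := hcs c3
      have h31 : ¬ c3 = c1 := fun h => h13 h.symm
      simp only [cs, if_true, h13, h31, if_false, add_zero, zero_add] at h0 h0'
      subst h0'
      have := two c1 k1 k2 α β h0 (by linear_combination hk)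
      linear_combination this
  · have h21 : ¬ c2 = c1 := fun h => h12 h.symm
    by_cases h13 : c1 = c3
    · subst h13
      have h0 := hcs c1
      have h0' := hcs c2
      simp only [cs, if_true, h12, h21, if_false, add_zero, zero_add] at h0 h0'
      subst h0'
      have := two c1 k1 k3 α γ h0 (by linear_combination hk)
      linear_combination this
    · have h31 : ¬ c3 = c1 := fun h => h13 h.symm
      have h0 := hcs c1
      simp only [cs, if_true, h21, h31, if_false, add_zero] at h0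
      subst h0
      by_cases h23 : c2 = c3
      · subst h23
        have h0' := hcs c2
        simp only [cs, if_true, h12, if_false, zero_add] at h0'
        have := two c2 k2 k3 β γ h0' (by linear_combination hk)
        linear_combination this
      · have h32 : ¬ c3 = c2 := fun h => h23 h.symm
        have h0' := hcs c2
        have h0'' := hcs c3
        simp only [cs, if_true, h12, h13, h23, h32, if_false, add_zero, zero_add] at h0' h0''
        subst h0' h0''
        ring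

/-- the directions of the changes -/
def sg : Fin 4 → ℤ := ![1, 1, -1, 0]

/-- the changed numbers -/
def yw (K m : ℕ) (w : Fin 4 × ℤ → ℤ) (v : Fin 4 × ℤ) : ℤ := yy K m v + sg v.1 * w v

theorem sg_abs {w : Fin 4 × ℤ → ℤ} (hw : ∀ v, |w v| ≤ 1) (v : Fin 4 × ℤ) :
    |sg v.1 * w v| ≤ 1 := by
  have h1 := hw v
  obtain ⟨c, k⟩ := v
  fin_cases c
  · simpa [sg] using h1
  · simpa [sg] using h1
  · simpa [sg] using h1
  · simp [sg]

theorem yw_three (K m : ℕ) (w : Fin 4 × ℤ → ℤ) (i j : ℤ) :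
    yw K m w (0, i) + yw K m w (1, j) - yw K m w (2, i + j) =
      3 + w (0, i) + w (1, j) + w (2, i + j) := by
  have h := yy_three K m i j
  unfold yw
  simp only [sg, Fin.isValue, Matrix.cons_val_zero, Matrix.cons_val_one, Matrix.cons_val]
  linear_combination h

theorem sign_eq' {K m d : ℕ} {S : Finset ℤ} {τ : ℤ} (hK : 2 ≤ K) (hS : Free K S)
    (hm : ∀ x ∈ S, 0 ≤ x ∧ x < m) (hτ : |τ| ≤ 2 * m) (hd : d ≤ m) {w : Fin 4 × ℤ → ℤ}
    (hw : ∀ v, |w v| ≤ 1)
    {v1 v2 v3 : Fin 4 × ℤ} (h1 : v1 ∈ WW m d S τ) (h2 : v2 ∈ WW m d S τ) (h3 : v3 ∈ WW m d S τ)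
    {α β γ : ℤ} (hα : |α| ≤ K) (hβ : |β| ≤ K) (hγ : |γ| ≤ K)
    (hne : ∀ i j, (0, i) ∈ WW m d S τ → (1, j) ∈ WW m d S τ → (2, i + j) ∈ WW m d S τ →
      w (0, i) = -1 → w (1, j) = -1 → w (2, i + j) = -1 →
      ({v1, v2, v3} : Finset (Fin 4 × ℤ)) ≠ {(0, i), (1, j), (2, i + j)}) :
    SignType.sign (α * yw K m w v1 + β * yw K m w v2 + γ * yw K m w v3) =
      SignType.sign (α * yy K m v1 + β * yy K m v2 + γ * yy K m v3) := by
  rcases form_cases hK hm hτ hd h1 h2 h3 hα hβ hγ with ⟨Y, hY, h⟩ | ⟨hcs, hk, h⟩ |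
    ⟨c, i, j, hc0, hi, hj, hij, hset, h⟩
  · obtain ⟨η, hη, e⟩ := h (fun v => sg v.1 * w v) (sg_abs hw)
    obtain ⟨η', hη', e'⟩ := h (fun _ => 0) (fun _ => by simp)
    simp only [add_zero] at e'
    unfold yw
    rw [e, e', sign_add_mul hη hY, sign_add_mul hη' hY]
  · have h4 := formal' hS (fun v => sg v.1 * w v) (fun k => by simp [sg]) h1 h2 h3 hα hβ hγ hcs hk
    congr 1
    unfold yw
    linear_combination h4
  · rw [h (yw K m w), h (yy K m), yw_three, yy_three]
    have a1 := abs_le.1 (hw (0, i))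
    have a2 := abs_le.1 (hw (1, j))
    have a3 := abs_le.1 (hw (2, i + j))
    have h4 : 0 < 3 + w (0, i) + w (1, j) + w (2, i + j) := by
      by_contra hcon
      exact hne i j hi hj hij (by omega) (by omega) (by omega) hset
    rw [sign_mul, sign_mul, sign_pos h4, sign_pos (by norm_num : (0 : ℤ) < 3)]

theorem yw_inj {K m d : ℕ} {S : Finset ℤ} {τ : ℤ} (hK : 2 ≤ K)
    (hm : ∀ x ∈ S, 0 ≤ x ∧ x < m) (hτ : |τ| ≤ 2 * m) (hd : d ≤ m) {w : Fin 4 × ℤ → ℤ}
    (hw : ∀ v, |w v| ≤ 1)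
    {v1 v2 : Fin 4 × ℤ} (h1 : v1 ∈ WW m d S τ) (h2 : v2 ∈ WW m d S τ)
    (heq : yw K m w v1 = yw K m w v2) : v1 = v2 := by
  have hK1 : (2 : ℤ) ≤ K := by exact_mod_cast hK
  have hone : |(1 : ℤ)| ≤ K := by rw [abs_one]; omega
  have hmone : |(-1 : ℤ)| ≤ K := by rw [abs_neg, abs_one]; omega
  have hzero : |(0 : ℤ)| ≤ K := by rw [abs_zero]; omega
  rcases form_cases hK hm hτ hd h1 h2 h2 hone hmone hzero with ⟨Y, hY, h⟩ | ⟨hcs, hk, -⟩ |
    ⟨c, i, j, hc0, hi, hj, hij, hset, h⟩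
  · obtain ⟨η, hη, e⟩ := h (fun v => sg v.1 * w v) (sg_abs hw)
    have h5 := sign_add_mul hη hY
    have h6 : 1 * (yy K m v1 + (fun v : Fin 4 × ℤ => sg v.1 * w v) v1) +
        -1 * (yy K m v2 + (fun v : Fin 4 × ℤ => sg v.1 * w v) v2) +
        0 * (yy K m v2 + (fun v : Fin 4 × ℤ => sg v.1 * w v) v2) = 0 := by
      unfold yw at heq
      simp only
      linear_combination heq
    rw [← e, h6, sign_zero] at h5
    exact absurd (sign_eq_zero_iff.1 h5.symm) hY
  · obtain ⟨c1, k1⟩ := v1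
    obtain ⟨c2, k2⟩ := v2
    have h5 := hcs c1
    simp only [cs, if_true] at h5 hk
    by_cases h6 : c2 = c1
    · subst h6
      have : k1 = k2 := by omega
      rw [this]
    · simp [h6] at h5
  · exfalso
    have h5 : ({(0, i), (1, j), (2, i + j)} : Finset (Fin 4 × ℤ)).card = 3 := by
      rw [Finset.card_eq_three]
      exact ⟨(0, i), (1, j), (2, i + j), by simp, by simp, by simp, rfl⟩
    rw [← hset] at h5
    have h6 : ({v1, v2, v2} : Finset (Fin 4 × ℤ)).card ≤ 2 := by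
      have : ({v1, v2, v2} : Finset (Fin 4 × ℤ)) = {v1, v2} := by
        ext v; simp
      rw [this]
      exact Finset.card_le_two
    omega

theorem yw_div (K m : ℕ) {w : Fin 4 × ℤ → ℤ} (hw : ∀ v, |w v| ≤ 1) (v : Fin 4 × ℤ) :
    yw K m w v / 4 = yy K m v / 4 := by
  have h1 := abs_le.1 (sg_abs hw v)
  have h2 := hc_range v.1
  have h3 : yy K m v = hc v.1 + 4 * (3 * K * (v.2 + (9 * K * m + 1) * zc K v.1)) := by
    unfold yy; ring
  unfold yw
  rw [h3]
  omega

theorem yw_bound {K m d : ℕ} {S : Finset ℤ} {τ : ℤ} (hK : 2 ≤ K) (hm1 : 1 ≤ m)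
    (hm : ∀ x ∈ S, 0 ≤ x ∧ x < m) (hτ : |τ| ≤ 2 * m) (hd : d ≤ m) {w : Fin 4 × ℤ → ℤ}
    (hw : ∀ v, |w v| ≤ 1) {v : Fin 4 × ℤ} (hv : v ∈ WW m d S τ) :
    |yw K m w v| ≤ 2000 * (K ^ 4 * m) := by
  have hK1 : (2 : ℤ) ≤ K := by exact_mod_cast hK
  have hm1' : (1 : ℤ) ≤ m := by exact_mod_cast hm1
  have h1 := sg_abs hw v
  have h2 := hc_range v.1
  have h3 := place_abs hm hτ hd hv
  have h4 := zc_abs K hK v.1
  have h5 : |(9 * (K : ℤ) * m + 1) * zc K v.1| ≤ (9 * K * m + 1) * (16 * K ^ 2) := by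
    rw [abs_mul, abs_of_pos (by positivity : (0 : ℤ) < 9 * K * m + 1)]
    exact mul_le_mul_of_nonneg_left h4 (by positivity)
  have h6 : |v.2 + (9 * (K : ℤ) * m + 1) * zc K v.1| ≤ 3 * m + (9 * K * m + 1) * (16 * K ^ 2) :=
    (abs_add_le _ _).trans (add_le_add h3 h5)
  have h7 : |12 * (K : ℤ) * (v.2 + (9 * K * m + 1) * zc K v.1)| ≤
      12 * K * (3 * m + (9 * K * m + 1) * (16 * K ^ 2)) := by
    rw [abs_mul, abs_of_pos (by positivity : (0 : ℤ) < 12 * K)]
    exact mul_le_mul_of_nonneg_left h6 (by positivity)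
  have h8 : |yw K m w v| ≤ 3 + 12 * K * (3 * m + (9 * K * m + 1) * (16 * K ^ 2)) := by
    unfold yw yy
    rw [abs_le] at h1 h7 ⊢
    constructor <;> omega
  refine h8.trans ?_
  have a1 : (1 : ℤ) ≤ K := by omega
  have a3 : (K : ℤ) * m ≤ K ^ 4 * m := by
    have h9 : (K : ℤ) ≤ K ^ 4 := by
      calc (K : ℤ) = K ^ 1 := (pow_one _).symm
        _ ≤ K ^ 4 := pow_le_pow_right₀ a1 (by norm_num)
    exact mul_le_mul_of_nonneg_right h9 (by positivity)
  have a4 : (K : ℤ) ^ 3 ≤ K ^ 4 * m := by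
    have h9 : (K : ℤ) ^ 3 ≤ K ^ 4 := pow_le_pow_right₀ a1 (by norm_num)
    nlinarith [pow_pos (by omega : (0 : ℤ) < K) 4]
  have a5 : (1 : ℤ) ≤ K ^ 4 * m := by
    have := one_le_pow₀ a1 (n := 4)
    nlinarith
  have a6 : (3 : ℤ) + 12 * K * (3 * m + (9 * K * m + 1) * (16 * K ^ 2)) =
      3 + 36 * (K * m) + 1728 * (K ^ 4 * m) + 192 * K ^ 3 := by ring
  rw [a6]
  linarith

end Pool.Agent.J6H11.Lsk
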