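import Mathlib

/-!
# A level one inequality
-/

set_option autoImplicit false

namespace Pool.Agent.J6H11.Lsk

open Finset

theorem exp_sum_le {H ι : Type} [Fintype H] [DecidableEq ι] (F : ι → H → ℝ) (σ : ι → H → H)
    (c : ι → ℝ) :
    ∀ B : Finset ι, (∀ t ∈ B, Function.Involutive (σ t)) → (∀ t ∈ B, ∀ h, F t (σ t h) = -F t h) →
    (∀ t ∈ B, ∀ t' ∈ B, t ≠ t' → ∀ h, F t' (σ t h) = F t' h) → (∀ t ∈ B, ∀ h, |F t h| ≤ 1) →
    ∑ h, Real.exp (∑ t ∈ B, c t * F t h) ≤
      Fintype.card H * Real.exp ((∑ t ∈ B, c t ^ 2) / 2) := by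
  intro B
  induction B using Finset.induction_on with
  | empty =>
    intro _ _ _ _
    simp
  | insert t0 B ht0 ih =>
    intro h1 h2 h3 h4
    have ih' := ih (fun t ht => h1 t (Finset.mem_insert_of_mem ht))
      (fun t ht => h2 t (Finset.mem_insert_of_mem ht))
      (fun t ht t' ht' => h3 t (Finset.mem_insert_of_mem ht) t' (Finset.mem_insert_of_mem ht'))
      (fun t ht => h4 t (Finset.mem_insert_of_mem ht))
    have hm : t0 ∈ insert t0 B := Finset.mem_insert_self _ _
    obtain ⟨R, hR⟩ : ∃ R : H → ℝ, R = fun h => ∑ t ∈ B, c t * F t h := ⟨_, rfl⟩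
    have hRσ : ∀ h, R (σ t0 h) = R h := by
      intro h
      rw [hR]
      refine Finset.sum_congr rfl fun t ht => ?_
      rw [h3 t0 hm t (Finset.mem_insert_of_mem ht) (fun e => ht0 (e ▸ ht))]
    have e1 : ∀ h, ∑ t ∈ insert t0 B, c t * F t h = c t0 * F t0 h + R h := by
      intro h
      rw [Finset.sum_insert ht0, hR]
    have e2 : ∑ h, Real.exp (c t0 * F t0 h + R h) = ∑ h, Real.exp (-(c t0 * F t0 h) + R h) := by
      rw [← Equiv.sum_comp (Function.Involutive.toPerm _ (h1 t0 hm))]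
      refine Finset.sum_congr rfl fun h _ => ?_
      show Real.exp (c t0 * F t0 (σ t0 h) + R (σ t0 h)) = _
      rw [h2 t0 hm, hRσ]
      congr 1
      ring
    have e3 : ∑ h, Real.exp (c t0 * F t0 h + R h) ≤
        ∑ h, Real.exp (c t0 ^ 2 / 2) * Real.exp (R h) := by
      have e4 : ∑ h, Real.exp (c t0 * F t0 h + R h) =
          ∑ h, Real.cosh (c t0 * F t0 h) * Real.exp (R h) := by
        have e5 : ∑ h, Real.cosh (c t0 * F t0 h) * Real.exp (R h) =
            (∑ h, Real.exp (c t0 * F t0 h + R h) + ∑ h, Real.exp (-(c t0 * F t0 h) + R h)) / 2 := by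
          rw [← Finset.sum_add_distrib, Finset.sum_div]
          refine Finset.sum_congr rfl fun h _ => ?_
          rw [Real.cosh_eq, Real.exp_add, Real.exp_add]
          ring
        rw [e5, ← e2]
        ring
      rw [e4]
      refine Finset.sum_le_sum fun h _ => ?_
      refine mul_le_mul_of_nonneg_right ?_ (Real.exp_pos _).le
      refine (Real.cosh_le_exp_half_sq _).trans (Real.exp_le_exp.2 ?_)
      have h5 := h4 t0 hm h
      have h6 : F t0 h ^ 2 ≤ 1 := by
        rw [← sq_abs]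
        exact pow_le_one₀ (abs_nonneg _) h5
      have h7 : (c t0 * F t0 h) ^ 2 ≤ c t0 ^ 2 := by
        rw [mul_pow]
        nlinarith [sq_nonneg (c t0)]
      linarith
    calc ∑ h, Real.exp (∑ t ∈ insert t0 B, c t * F t h)
        = ∑ h, Real.exp (c t0 * F t0 h + R h) := Finset.sum_congr rfl fun h _ => by rw [e1]
      _ ≤ ∑ h, Real.exp (c t0 ^ 2 / 2) * Real.exp (R h) := e3
      _ = Real.exp (c t0 ^ 2 / 2) * ∑ h, Real.exp (R h) := by rw [Finset.mul_sum]
      _ ≤ Real.exp (c t0 ^ 2 / 2) *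
          (Fintype.card H * Real.exp ((∑ t ∈ B, c t ^ 2) / 2)) := by
          refine mul_le_mul_of_nonneg_left ?_ (Real.exp_pos _).le
          rw [hR]
          exact ih'
      _ = Fintype.card H * Real.exp ((∑ t ∈ insert t0 B, c t ^ 2) / 2) := by
          rw [Finset.sum_insert ht0, add_div, Real.exp_add]
          ring

/-- the level one inequality -/
theorem level_one {H ι : Type} [Fintype H] [DecidableEq ι] (F : ι → H → ℝ) (σ : ι → H → H)
    (B : Finset ι) (h1 : ∀ t ∈ B, Function.Involutive (σ t))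
    (h2 : ∀ t ∈ B, ∀ h, F t (σ t h) = -F t h)
    (h3 : ∀ t ∈ B, ∀ t' ∈ B, t ≠ t' → ∀ h, F t' (σ t h) = F t' h)
    (h4 : ∀ t ∈ B, ∀ h, |F t h| ≤ 1) (Z : Finset H) (hZ : Z.Nonempty) :
    ∑ t ∈ B, ((∑ h ∈ Z, F t h) / Z.card) ^ 2 ≤
      2 * Real.log (Fintype.card H / Z.card) := by
  obtain ⟨μ, hμ⟩ : ∃ μ : ι → ℝ, μ = fun t => (∑ h ∈ Z, F t h) / Z.card := ⟨_, rfl⟩
  obtain ⟨Y, hY⟩ : ∃ Y : H → ℝ, Y = fun h => ∑ t ∈ B, μ t * F t h := ⟨_, rfl⟩
  have hz : (0 : ℝ) < Z.card := by exact_mod_cast hZ.card_pos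
  have hH : (0 : ℝ) < Fintype.card H := by
    have : Z.card ≤ Fintype.card H := Finset.card_le_univ Z
    exact_mod_cast hZ.card_pos.trans_le this
  obtain ⟨s, hs⟩ : ∃ s : ℝ, s = ∑ t ∈ B, μ t ^ 2 := ⟨_, rfl⟩
  have hYs : ∑ h ∈ Z, Y h = Z.card * s := by
    rw [hY, Finset.sum_comm, hs, Finset.mul_sum]
    refine Finset.sum_congr rfl fun t _ => ?_
    rw [← Finset.mul_sum]
    have : ∑ h ∈ Z, F t h = Z.card * μ t := by
      rw [hμ]
      field_simp
    rw [this]
    ring
  have e1 : Z.card * Real.exp s ≤ ∑ h ∈ Z, Real.exp (Y h) := by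
    have e2 : ∀ h, Real.exp s * (1 + (Y h - s)) ≤ Real.exp (Y h) := by
      intro h
      have e3 : Real.exp (Y h) = Real.exp s * Real.exp (Y h - s) := by
        rw [← Real.exp_add]
        congr 1
        ring
      rw [e3]
      refine mul_le_mul_of_nonneg_left ?_ (Real.exp_pos _).le
      have := Real.add_one_le_exp (Y h - s)
      linarith
    have e3 := Finset.sum_le_sum fun h (_ : h ∈ Z) => e2 h
    rw [← Finset.mul_sum, Finset.sum_add_distrib, Finset.sum_sub_distrib, hYs] at e3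
    simp only [Finset.sum_const, nsmul_eq_mul, mul_one] at e3
    have e4 : (Z.card : ℝ) + (Z.card * s - Z.card * s) = Z.card := by ring
    rw [e4] at e3
    linarith
  have e2 : ∑ h ∈ Z, Real.exp (Y h) ≤ Fintype.card H * Real.exp (s / 2) := by
    have e3 := exp_sum_le F σ μ B h1 h2 h3 h4
    rw [← hs] at e3
    refine le_trans ?_ e3
    rw [hY]
    exact Finset.sum_le_sum_of_subset_of_nonneg (Finset.subset_univ Z)
      fun h _ _ => (Real.exp_pos _).le
  have e3 : Real.exp (s / 2) ≤ Fintype.card H / Z.card := by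
    rw [le_div_iff₀ hz]
    have e4 : Real.exp s = Real.exp (s / 2) * Real.exp (s / 2) := by
      rw [← Real.exp_add]
      congr 1
      ring
    have e5 := e1.trans e2
    rw [e4] at e5
    have e6 : Real.exp (s / 2) * (Real.exp (s / 2) * Z.card) ≤
        Real.exp (s / 2) * Fintype.card H := by linarith
    exact le_of_mul_le_mul_left e6 (Real.exp_pos _)
  have e4 : s / 2 ≤ Real.log (Fintype.card H / Z.card) := by
    rw [Real.le_log_iff_exp_le (by positivity)]
    exact e3
  rw [hs, hμ] at e4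
  linarith

/-- the sum of the influences -/
theorem sum_abs_le {H ι G : Type} [Fintype H] [Nonempty H] [DecidableEq ι] [DecidableEq G]
    (F : ι → H → ℝ) (σ : ι → H → H)
    (B : Finset ι) (h1 : ∀ t ∈ B, Function.Involutive (σ t))
    (h2 : ∀ t ∈ B, ∀ h, F t (σ t h) = -F t h)
    (h3 : ∀ t ∈ B, ∀ t' ∈ B, t ≠ t' → ∀ h, F t' (σ t h) = F t' h)
    (h4 : ∀ t ∈ B, ∀ h, |F t h| ≤ 1) (W : H → G) {r : ℝ} (hr : 0 < r) :
    ∑ t ∈ B, ∑ g ∈ Finset.univ.image W, |∑ h ∈ Finset.univ.filter (fun h => W h = g), F t h| ≤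
      Fintype.card H * (r / 2 * B.card + Real.log (Finset.univ.image W).card / r) := by
  obtain ⟨Z, hZ⟩ : ∃ Z : G → Finset H, Z = fun g => Finset.univ.filter (fun h => W h = g) :=
    ⟨_, rfl⟩
  obtain ⟨V, hV⟩ : ∃ V : Finset G, V = Finset.univ.image W := ⟨_, rfl⟩
  have hH : (0 : ℝ) < Fintype.card H := by exact_mod_cast Fintype.card_pos
  have hVne : V.Nonempty := by
    rw [hV]
    exact Finset.univ_nonempty.image _
  have hVc : (0 : ℝ) < V.card := by exact_mod_cast hVne.card_pos
  have hZne : ∀ g ∈ V, (Z g).Nonempty := by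
    intro g hg
    rw [hV] at hg
    obtain ⟨h, _, rfl⟩ := Finset.mem_image.1 hg
    rw [hZ]
    exact ⟨h, Finset.mem_filter.2 ⟨Finset.mem_univ _, rfl⟩⟩
  have hsum : ∑ g ∈ V, ((Z g).card : ℝ) = Fintype.card H := by
    rw [hV, hZ]
    have := Finset.card_eq_sum_card_image W (Finset.univ : Finset H)
    rw [Finset.card_univ] at this
    rw [this]
    push_cast
    rfl
  rw [Finset.sum_comm]
  have key : ∀ g ∈ V, ∑ t ∈ B, |∑ h ∈ Z g, F t h| ≤
      (Z g).card * (r / 2 * B.card) +
        ((Z g).card * Real.log V.card + (Fintype.card H / V.card - (Z g).card)) / r := by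
    intro g hg
    have hz : (0 : ℝ) < (Z g).card := by exact_mod_cast (hZne g hg).card_pos
    have e1 := level_one F σ B h1 h2 h3 h4 (Z g) (hZne g hg)
    have e2 : ∀ t ∈ B, |∑ h ∈ Z g, F t h| ≤ (Z g).card * (r / 2) +
        (Z g).card * ((∑ h ∈ Z g, F t h) / (Z g).card) ^ 2 / (2 * r) := by
      intro t _
      obtain ⟨x, hx⟩ : ∃ x : ℝ, x = (∑ h ∈ Z g, F t h) / (Z g).card := ⟨_, rfl⟩
      have e3 : ∑ h ∈ Z g, F t h = (Z g).card * x := by rw [hx]; field_simp
      rw [← hx, e3, abs_mul, abs_of_pos hz]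
      have e4 : |x| ≤ r / 2 + x ^ 2 / (2 * r) := by
        have e5 : 0 ≤ (|x| - r) ^ 2 := sq_nonneg _
        have e6 : r / 2 + x ^ 2 / (2 * r) = (r ^ 2 + x ^ 2) / (2 * r) := by field_simp
        rw [e6, le_div_iff₀ (by positivity)]
        rw [← sq_abs x]
        nlinarith
      calc ((Z g).card : ℝ) * |x| ≤ (Z g).card * (r / 2 + x ^ 2 / (2 * r)) :=
            mul_le_mul_of_nonneg_left e4 hz.le
        _ = _ := by ring
    have e3 := Finset.sum_le_sum e2
    rw [Finset.sum_add_distrib] at e3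
    have e4 : ∑ t ∈ B, (((Z g).card : ℝ) * ((∑ h ∈ Z g, F t h) / (Z g).card) ^ 2 / (2 * r)) =
        (Z g).card / (2 * r) * ∑ t ∈ B, ((∑ h ∈ Z g, F t h) / (Z g).card) ^ 2 := by
      rw [Finset.mul_sum]
      refine Finset.sum_congr rfl fun t _ => ?_
      ring
    rw [e4] at e3
    simp only [Finset.sum_const, nsmul_eq_mul] at e3
    have e5 : (Z g).card / (2 * r) * ∑ t ∈ B, ((∑ h ∈ Z g, F t h) / (Z g).card) ^ 2 ≤
        (Z g).card / (2 * r) * (2 * Real.log (Fintype.card H / (Z g).card)) :=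
      mul_le_mul_of_nonneg_left e1 (by positivity)
    have e6 : (Z g).card * Real.log (Fintype.card H / (Z g).card) ≤
        (Z g).card * Real.log V.card + (Fintype.card H / V.card - (Z g).card) := by
      have e7 : Real.log (Fintype.card H / (Z g).card) =
          Real.log V.card + Real.log (Fintype.card H / ((Z g).card * V.card)) := by
        rw [← Real.log_mul (by positivity) (by positivity)]
        congr 1
        field_simp
      have e8 : Real.log (Fintype.card H / ((Z g).card * V.card)) ≤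
          Fintype.card H / ((Z g).card * V.card) - 1 := Real.log_le_sub_one_of_pos (by positivity)
      rw [e7, mul_add]
      have e9 : ((Z g).card : ℝ) * (Fintype.card H / ((Z g).card * V.card) - 1) =
          Fintype.card H / V.card - (Z g).card := by field_simp
      have e10 := mul_le_mul_of_nonneg_left e8 hz.le
      linarith
    have e7 : (Z g).card / (2 * r) * (2 * Real.log (Fintype.card H / (Z g).card)) =
        (Z g).card * Real.log (Fintype.card H / (Z g).card) / r := by field_simp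
    have e8 : (Z g).card * Real.log (Fintype.card H / (Z g).card) / r ≤
        ((Z g).card * Real.log V.card + (Fintype.card H / V.card - (Z g).card)) / r :=
      div_le_div_of_nonneg_right e6 hr.le
    calc _ ≤ _ := e3
      _ ≤ (B.card : ℝ) * ((Z g).card * (r / 2)) +
          ((Z g).card * Real.log V.card + (Fintype.card H / V.card - (Z g).card)) / r := by
        linarith
      _ = _ := by ring
  rw [← hV]
  have e1 := Finset.sum_le_sum key
  have e2 : ∑ g ∈ V, (((Z g).card : ℝ) * (r / 2 * B.card) +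
      ((Z g).card * Real.log V.card + (Fintype.card H / V.card - (Z g).card)) / r) =
      Fintype.card H * (r / 2 * B.card + Real.log V.card / r) := by
    rw [Finset.sum_add_distrib, ← Finset.sum_mul, ← Finset.sum_div, Finset.sum_add_distrib,
      ← Finset.sum_mul, Finset.sum_sub_distrib, hsum]
    simp only [Finset.sum_const, nsmul_eq_mul]
    have : (V.card : ℝ) * (Fintype.card H / V.card) = Fintype.card H := by field_simp
    rw [this]
    ring
  rw [e2] at e1
  rw [hZ] at e1
  exact e1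

end Pool.Agent.J6H11.Lsk
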