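import Pool.Agent.J6H11.Lsk.Steps

/-!
# Planting a block in a linear sketch
-/

set_option autoImplicit false

namespace Pool.Agent.J6H11.Lsk

open Finset

variable {n : ℕ} {G : Type} [AddCommGroup G]

/-- the value of the sketch -/
def lin (g0 : G) (gg : Fin n → G) (h : Cube n) : G := g0 + ∑ i, (if h i then gg i else 0)

theorem lin_update (g0 : G) (gg : Fin n → G) (h : Cube n) (a : Fin n) (ha : h a = false)
    (u : Bool) : lin g0 gg (Function.update h a u) = lin g0 gg h + (if u then gg a else 0) := by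
  unfold lin
  rw [← Finset.add_sum_erase Finset.univ
      (fun i => if Function.update h a u i = true then gg i else 0) (Finset.mem_univ a),
    ← Finset.add_sum_erase Finset.univ (fun i => if h i = true then gg i else 0)
      (Finset.mem_univ a)]
  rw [Function.update_self, ha]
  have : ∑ i ∈ Finset.univ.erase a, (if Function.update h a u i = true then gg i else 0) =
      ∑ i ∈ Finset.univ.erase a, (if h i = true then gg i else 0) := by
    refine Finset.sum_congr rfl fun i hi => ?_
    rw [Function.update_of_ne (Finset.ne_of_mem_erase hi)]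
  rw [this]
  simp only [Bool.false_eq_true, if_false, zero_add]
  abel

/-- the block is set to zero -/
def base0 (a b c : Fin n) (h : Cube n) : Cube n :=
  fun i => if i = a ∨ i = b ∨ i = c then false else h i

theorem upd_false (a b c : Fin n) (h : Cube n) : upd a b c false false false h = base0 a b c h := by
  funext i
  unfold upd base0
  by_cases h1 : i = c
  · subst h1; simp
  · rw [Function.update_of_ne h1]
    by_cases h2 : i = b
    · subst h2; simp
    · rw [Function.update_of_ne h2]
      by_cases h3 : i = a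
      · subst h3; simp
      · rw [Function.update_of_ne h3]
        simp [h1, h2, h3]

theorem base0_perm (a b c : Fin n) (h : Cube n) : base0 b a c h = base0 a b c h := by
  funext i
  unfold base0
  congr 1
  simp only [eq_iff_iff]
  tauto

theorem base0_perm' (a b c : Fin n) (h : Cube n) : base0 c a b h = base0 a b c h := by
  funext i
  unfold base0
  congr 1
  simp only [eq_iff_iff]
  tauto

theorem upd_eq {a b c : Fin n} (hab : a ≠ b) (hac : a ≠ c) (hbc : b ≠ c) (u v w : Bool)
    (h : Cube n) : upd a b c u v w h =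
      Function.update (Function.update (Function.update (base0 a b c h) a u) b v) c w := by
  funext i
  unfold upd base0
  by_cases h1 : i = c
  · subst h1; simp
  · rw [Function.update_of_ne h1, Function.update_of_ne h1]
    by_cases h2 : i = b
    · subst h2; simp
    · rw [Function.update_of_ne h2, Function.update_of_ne h2]
      by_cases h3 : i = a
      · subst h3; simp
      · rw [Function.update_of_ne h3, Function.update_of_ne h3]
        simp [h1, h2, h3]

theorem lin_upd (g0 : G) (gg : Fin n → G) {a b c : Fin n} (hab : a ≠ b) (hac : a ≠ c)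
    (hbc : b ≠ c) (u v w : Bool) (h : Cube n) : lin g0 gg (upd a b c u v w h) =
      lin g0 gg (base0 a b c h) + ((if u then gg a else 0) + (if v then gg b else 0) +
        (if w then gg c else 0)) := by
  rw [upd_eq hab hac hbc, lin_update, lin_update, lin_update]
  · abel
  · simp [base0]
  · rw [Function.update_of_ne hab.symm]
    simp [base0]
  · rw [Function.update_of_ne hbc.symm, Function.update_of_ne hac.symm]
    simp [base0]

/-- the sum for a shift of the sketch -/
noncomputable def RR (g0 : G) (gg : Fin n → G) (a b c : Fin n) (ψ : G → ℝ) (y : G) : ℝ :=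
  ∑ h, ψ (lin g0 gg (base0 a b c h) + y)

theorem infl_nonneg {G : Type} [DecidableEq G] (W : Cube n → G) (a b c : Fin n) :
    0 ≤ infl W a b c := Finset.sum_nonneg fun _ _ => abs_nonneg _

theorem RR_step [DecidableEq G] (g0 : G) (gg : Fin n → G) {a b c : Fin n} (hab : a ≠ b)
    (hac : a ≠ c) (hbc : b ≠ c) (ψ : G → ℝ) (hψ : ∀ g, |ψ g| ≤ 1) (y : G) :
    |RR g0 gg a b c ψ (y + gg a) - RR g0 gg a b c ψ y| ≤ 8 * infl (lin g0 gg) a b c := by
  have h1 := step_le (lin g0 gg) hab hac hbc (fun g => ψ (g + y)) (fun g => hψ _)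
  have h2 : RR g0 gg a b c ψ (y + gg a) - RR g0 gg a b c ψ y =
      ∑ h, (ψ (lin g0 gg (upd a b c true false false h) + y) -
        ψ (lin g0 gg (upd a b c false false false h) + y)) := by
    unfold RR
    rw [← Finset.sum_sub_distrib]
    refine Finset.sum_congr rfl fun h _ => ?_
    rw [lin_upd g0 gg hab hac hbc, lin_upd g0 gg hab hac hbc]
    simp only [if_true, Bool.false_eq_true, if_false, add_zero]
    congr 2
    abel
  rw [h2]
  exact h1

theorem RR_move [DecidableEq G] (g0 : G) (gg : Fin n → G) {a b c : Fin n} (hab : a ≠ b)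
    (hac : a ≠ c) (hbc : b ≠ c) (ψ : G → ℝ) (hψ : ∀ g, |ψ g| ≤ 1) (y : G) (u : Bool) :
    |RR g0 gg a b c ψ (y + (if u then gg a else 0)) - RR g0 gg a b c ψ (y - gg a)| ≤
      16 * infl (lin g0 gg) a b c := by
  have h0 := infl_nonneg (lin g0 gg) a b c
  have h1 := RR_step g0 gg hab hac hbc ψ hψ (y - gg a)
  have h2 := RR_step g0 gg hab hac hbc ψ hψ y
  rw [sub_add_cancel] at h1
  cases u with
  | false =>
    simp only [Bool.false_eq_true, if_false, add_zero]
    linarith
  | true =>
    simp only [if_true]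
    have h3 : RR g0 gg a b c ψ (y + gg a) - RR g0 gg a b c ψ (y - gg a) =
        (RR g0 gg a b c ψ (y + gg a) - RR g0 gg a b c ψ y) +
        (RR g0 gg a b c ψ y - RR g0 gg a b c ψ (y - gg a)) := by ring
    rw [h3]
    refine (abs_add_le _ _).trans ?_
    linarith

theorem RR_perm (g0 : G) (gg : Fin n → G) (a b c : Fin n) (ψ : G → ℝ) (y : G) :
    RR g0 gg b a c ψ y = RR g0 gg a b c ψ y := by
  unfold RR
  refine Finset.sum_congr rfl fun h _ => ?_
  rw [base0_perm]

theorem RR_perm' (g0 : G) (gg : Fin n → G) (a b c : Fin n) (ψ : G → ℝ) (y : G) :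
    RR g0 gg c a b ψ y = RR g0 gg a b c ψ y := by
  unfold RR
  refine Finset.sum_congr rfl fun h _ => ?_
  rw [base0_perm']

theorem RR_all [DecidableEq G] (g0 : G) (gg : Fin n → G) {a b c : Fin n} (hab : a ≠ b)
    (hac : a ≠ c) (hbc : b ≠ c) (ψ : G → ℝ) (hψ : ∀ g, |ψ g| ≤ 1) (u v w : Bool) :
    |RR g0 gg a b c ψ ((if u then gg a else 0) + (if v then gg b else 0) +
        (if w then gg c else 0)) - RR g0 gg a b c ψ (-gg a - gg b - gg c)| ≤
      16 * (infl (lin g0 gg) a b c + infl (lin g0 gg) b a c + infl (lin g0 gg) c a b) := by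
  obtain ⟨A, hA⟩ : ∃ A : G, A = (if u then gg a else 0) := ⟨_, rfl⟩
  obtain ⟨B, hB⟩ : ∃ B : G, B = (if v then gg b else 0) := ⟨_, rfl⟩
  obtain ⟨C, hC⟩ : ∃ C : G, C = (if w then gg c else 0) := ⟨_, rfl⟩
  have h1 := RR_move g0 gg hab hac hbc ψ hψ (B + C) u
  have h2 := RR_move g0 gg hab.symm hbc hac ψ hψ (-gg a + C) v
  have h3 := RR_move g0 gg hac.symm hbc.symm hab ψ hψ (-gg a - gg b) w
  rw [RR_perm g0 gg a b c, RR_perm g0 gg a b c] at h2
  rw [RR_perm' g0 gg a b c, RR_perm' g0 gg a b c] at h3
  rw [← hA] at h1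
  rw [← hB] at h2
  rw [← hC] at h3
  rw [← hA, ← hB, ← hC]
  have e1 : B + C + A = A + B + C := by abel
  have e2 : B + C - gg a = -gg a + C + B := by abel
  have e3 : -gg a + C - gg b = -gg a - gg b + C := by abel
  rw [e1, e2] at h1
  rw [e3] at h2
  have e4 : RR g0 gg a b c ψ (A + B + C) - RR g0 gg a b c ψ (-gg a - gg b - gg c) =
      (RR g0 gg a b c ψ (A + B + C) - RR g0 gg a b c ψ (-gg a + C + B)) +
      (RR g0 gg a b c ψ (-gg a + C + B) - RR g0 gg a b c ψ (-gg a - gg b + C)) +
      (RR g0 gg a b c ψ (-gg a - gg b + C) - RR g0 gg a b c ψ (-gg a - gg b - gg c)) := by ring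
  rw [e4]
  refine (abs_add_three _ _ _).trans ?_
  linarith

/-- **Planting.** The distribution of the sketch does not change much. -/
theorem planted_le [DecidableEq G] (g0 : G) (gg : Fin n → G) {a b c : Fin n} (hab : a ≠ b)
    (hac : a ≠ c) (hbc : b ≠ c) (ψ : G → ℝ) (hψ : ∀ g, |ψ g| ≤ 1) :
    |∑ h, ψ (lin g0 gg h) - ∑ h, ψ (lin g0 gg (base0 a b c h) + (-gg a - gg b - gg c))| ≤
      16 * (infl (lin g0 gg) a b c + infl (lin g0 gg) b a c + infl (lin g0 gg) c a b) := by
  obtain ⟨E, hE⟩ : ∃ E : ℝ, E = infl (lin g0 gg) a b c + infl (lin g0 gg) b a c +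
    infl (lin g0 gg) c a b := ⟨_, rfl⟩
  have key : ∀ u v w : Bool, |(∑ h, ψ (lin g0 gg (upd a b c u v w h))) -
      RR g0 gg a b c ψ (-gg a - gg b - gg c)| ≤ 16 * E := by
    intro u v w
    have h1 := RR_all g0 gg hab hac hbc ψ hψ u v w
    have h2 : ∑ h, ψ (lin g0 gg (upd a b c u v w h)) = RR g0 gg a b c ψ
        ((if u then gg a else 0) + (if v then gg b else 0) + (if w then gg c else 0)) := by
      unfold RR
      refine Finset.sum_congr rfl fun h _ => ?_
      rw [lin_upd g0 gg hab hac hbc]
    rw [h2, hE]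
    exact h1
  have h8 := avg_three a b c (fun h => ψ (lin g0 gg h))
  simp only [Finset.sum_add_distrib] at h8
  have k1 := abs_le.1 (key false false false)
  have k2 := abs_le.1 (key false false true)
  have k3 := abs_le.1 (key false true false)
  have k4 := abs_le.1 (key false true true)
  have k5 := abs_le.1 (key true false false)
  have k6 := abs_le.1 (key true false true)
  have k7 := abs_le.1 (key true true false)
  have k8 := abs_le.1 (key true true true)
  have hR : ∑ h, ψ (lin g0 gg (base0 a b c h) + (-gg a - gg b - gg c)) =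
      RR g0 gg a b c ψ (-gg a - gg b - gg c) := rfl
  rw [hR, ← hE, abs_le]
  constructor <;> linarith

/-- The sum of the influences of the blocks of a matching. -/
theorem infl_sum_le {G : Type} {ι : Type} [DecidableEq ι] [DecidableEq G] (W : Cube n → G) (B : Finset ι)
    (a b c : ι → Fin n) (hab : ∀ t ∈ B, a t ≠ b t) (hac : ∀ t ∈ B, a t ≠ c t)
    (hd : ∀ t ∈ B, ∀ t' ∈ B, t ≠ t' → a t ≠ a t' ∧ a t ≠ b t' ∧ a t ≠ c t') {r : ℝ}
    (hr : 0 < r) :
    ∑ t ∈ B, infl W (a t) (b t) (c t) ≤
      2 ^ n * (r / 2 * B.card + Real.log (Finset.univ.image W).card / r) := by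
  have h1 := sum_abs_le (H := Cube n) (fun t => cmp (a t) (b t) (c t))
    (fun t => flip (a t) (b t) (c t)) B (fun t ht => flip_inv (hab t ht) (hac t ht))
    (fun t ht h => cmp_flip (hab t ht) (hac t ht) h)
    (fun t ht t' ht' hne h => cmp_flip_of_ne (hd t ht t' ht' hne).1 (hd t ht t' ht' hne).2.1
      (hd t ht t' ht' hne).2.2 h)
    (fun t _ h => cmp_abs _ _ _ h) W hr
  have h2 : (Fintype.card (Cube n) : ℝ) = 2 ^ n := by
    simp
  rw [h2] at h1
  exact h1

end Pool.Agent.J6H11.Lsk
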