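import Pool.Agent.J6H11.Lsk.Inst
import Pool.Agent.J6H11.Lsk.Plant

/-!
# Programs on the instances
-/

set_option autoImplicit false

namespace Pool.Agent.J6H11.Lsk

open Finset
open Pool.Agent.J6H11.Sk3 hiding Prog

namespace Tree

variable {n : ℕ}

/-- the queries `triple` -/
noncomputable def tri (K p : ℕ) (x : Fin n → ℤ) : Tree n → List (Fin n × Fin n × Fin n)
  | answer _ => []
  | digits i next => (next (x i % p) (x i / (4 * p))).tri K p x
  | pair i j next => (next (signs K (x i) (x j) 0)).tri K p x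
  | triple i j k next => (i, j, k) :: (next (signs K (x i) (x j) (x k))).tri K p x

theorem length_tri (K p : ℕ) (x : Fin n → ℤ) (P : Tree n) :
    (P.tri K p x).length = P.triples K p x := by
  induction P with
  | answer b => rfl
  | digits i next ih => exact ih _ _
  | pair i j next ih => exact ih _
  | triple i j k next ih => exact congrArg (· + 1) (ih _)

theorem congr (K p : ℕ) (x x' : Fin n → ℤ) (P : Tree n)
    (hd : ∀ i, x' i % p = x i % p ∧ x' i / (4 * p) = x i / (4 * p))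
    (hp : ∀ i j, signs K (x' i) (x' j) 0 = signs K (x i) (x j) 0)
    (ht : ∀ t ∈ P.tri K p x,
      signs K (x' t.1) (x' t.2.1) (x' t.2.2) = signs K (x t.1) (x t.2.1) (x t.2.2)) :
    P.eval K p x' = P.eval K p x ∧ P.triples K p x' = P.triples K p x := by
  induction P with
  | answer b => exact ⟨rfl, rfl⟩
  | digits i next ih =>
    simp only [eval, triples]
    rw [(hd i).1, (hd i).2]
    exact ih _ _ ht
  | pair i j next ih =>
    simp only [eval, triples]
    rw [hp i j]
    exact ih _ ht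
  | triple i j k next ih =>
    simp only [eval, triples]
    rw [ht (i, j, k) (List.mem_cons_self ..)]
    have := ih (signs K (x i) (x j) (x k)) (fun t h => ht t (List.mem_cons_of_mem _ h))
    exact ⟨this.1, congrArg (· + 1) this.2⟩

end Tree

variable {n N K m d p : ℕ} {S : Finset ℤ} {τ : ℤ}

/-- the instances -/
def XU (K m p : ℕ) (e : Fin n → Fin 4 × ℤ) (u : Fin n → ℤ) : Fin n → ℤ :=
  fun a => p * (yy K m (e a) + sg (e a).1 * u a)

/-- the changes as a function of the items -/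
noncomputable def wx (e : Fin n → Fin 4 × ℤ) (u : Fin n → ℤ) : Fin 4 × ℤ → ℤ :=
  Function.extend e u 0

theorem wx_abs {e : Fin n → Fin 4 × ℤ} (hei : Function.Injective e) {u : Fin n → ℤ}
    (hu : ∀ a, |u a| ≤ 1) (v : Fin 4 × ℤ) : |wx e u v| ≤ 1 := by
  unfold wx
  by_cases h : ∃ a, e a = v
  · obtain ⟨a, rfl⟩ := h
    rw [hei.extend_apply]
    exact hu a
  · rw [Function.extend_apply' _ _ _ h]
    simp

theorem XU_eq {e : Fin n → Fin 4 × ℤ} (hei : Function.Injective e) (u : Fin n → ℤ) (a : Fin n) :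
    XU K m p e u a = p * yw K m (wx e u) (e a) := by
  unfold XU yw wx
  rw [hei.extend_apply]

theorem XU_valid (H : Setup n N K m d p S τ) {e : Fin n → Fin 4 × ℤ} (he : ∀ i, e i ∈ WW m d S τ)
    (hei : Function.Injective e) {u : Fin n → ℤ} (hu : ∀ a, |u a| ≤ 1) :
    Valid N (XU K m p e u) := by
  have hp0 : (0 : ℤ) < p := by exact_mod_cast H.hp
  constructor
  · intro i j h
    rw [XU_eq hei, XU_eq hei] at h
    exact hei (yw_inj H.hK H.hm H.hτ H.hd (wx_abs hei hu) (he i) (he j)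
      (mul_left_cancel₀ hp0.ne' h))
  · intro i
    have h1 := yw_bound H.hK H.hm1 H.hm H.hτ H.hd (wx_abs hei hu) (he i)
    rw [XU_eq hei, abs_mul, abs_of_pos hp0]
    calc (p : ℤ) * |yw K m (wx e u) (e i)| ≤ p * (2000 * (K ^ 4 * m)) :=
          mul_le_mul_of_nonneg_left h1 hp0.le
      _ ≤ N := by exact_mod_cast H.hN

theorem XU_digits (H : Setup n N K m d p S τ) {e : Fin n → Fin 4 × ℤ}
    (hei : Function.Injective e) {u : Fin n → ℤ} (hu : ∀ a, |u a| ≤ 1) (i : Fin n) :
    XU K m p e u i % p = X0 K m p e i % p ∧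
      XU K m p e u i / (4 * p) = X0 K m p e i / (4 * p) := by
  have hp0 : (0 : ℤ) < p := by exact_mod_cast H.hp
  rw [XU_eq hei]
  unfold X0
  constructor
  · rw [Int.mul_emod_right, Int.mul_emod_right]
  · rw [mul_comm (4 : ℤ) (p : ℤ), Int.mul_ediv_mul_of_pos _ _ hp0, Int.mul_ediv_mul_of_pos _ _ hp0,
      yw_div K m (wx_abs hei hu)]

theorem XU_signs (H : Setup n N K m d p S τ) {e : Fin n → Fin 4 × ℤ} (he : ∀ i, e i ∈ WW m d S τ)
    (hei : Function.Injective e) {ix : Fin 4 × ℤ → Fin n} (hix : ∀ v ∈ WW m d S τ, e (ix v) = v)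
    {u : Fin n → ℤ} (hu : ∀ a, |u a| ≤ 1) {K0 : ℕ} (hK0 : K0 ≤ K) (a b c : Fin n)
    (hne : ∀ t ∈ TT S τ, u (ix (0, t.1)) = -1 → u (ix (1, t.2)) = -1 →
      u (ix (2, t.1 + t.2)) = -1 → s3 (e a) (e b) (e c) ≠ ts t) :
    signs K0 (XU K m p e u a) (XU K m p e u b) (XU K m p e u c) =
      signs K0 (X0 K m p e a) (X0 K m p e b) (X0 K m p e c) := by
  have hp0 : (0 : ℤ) < p := by exact_mod_cast H.hp
  have hKK : (K0 : ℤ) ≤ K := by exact_mod_cast hK0
  have hwx : ∀ v ∈ WW m d S τ, wx e u v = u (ix v) := by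
    intro v hv
    unfold wx
    nth_rw 1 [← hix v hv]
    rw [hei.extend_apply]
  funext α β γ
  unfold signs
  split_ifs with h
  · have h1 := sign_eq' H.hK H.hS H.hm H.hτ H.hd (wx_abs hei hu) (he a) (he b) (he c)
      (h.1.trans hKK) (h.2.1.trans hKK) (h.2.2.trans hKK) (by
        intro i j hi hj hij e1 e2 e3
        rw [hwx _ hi] at e1
        rw [hwx _ hj] at e2
        rw [hwx _ hij] at e3
        have hi' : i ∈ S := by
          rcases mem_WW.1 hi with h5 | h5 | h5 | h5
          · exact h5.2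
          · simp at h5
          · simp at h5
          · simp at h5
        have hj' : j ∈ S := by
          rcases mem_WW.1 hj with h5 | h5 | h5 | h5
          · simp at h5
          · exact h5.2
          · simp at h5
          · simp at h5
        have hij' : i + j - τ ∈ S := by
          rcases mem_WW.1 hij with h5 | h5 | h5 | h5
          · simp at h5
          · simp at h5
          · exact h5.2
          · simp at h5
        exact hne (i, j) (mem_TT.2 ⟨hi', hj', hij'⟩) e1 e2 e3)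
    have e1 : α * XU K m p e u a + β * XU K m p e u b + γ * XU K m p e u c =
        p * (α * yw K m (wx e u) (e a) + β * yw K m (wx e u) (e b) +
          γ * yw K m (wx e u) (e c)) := by
      rw [XU_eq hei, XU_eq hei, XU_eq hei]; ring
    have e2 : α * X0 K m p e a + β * X0 K m p e b + γ * X0 K m p e c =
        p * (α * yy K m (e a) + β * yy K m (e b) + γ * yy K m (e c)) := by
      unfold X0; ring
    rw [e1, e2, sign_mul, sign_mul, h1]
  · rfl

theorem XU_pair (H : Setup n N K m d p S τ) {e : Fin n → Fin 4 × ℤ} (he : ∀ i, e i ∈ WW m d S τ)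
    (hei : Function.Injective e) {u : Fin n → ℤ} (hu : ∀ a, |u a| ≤ 1) {K0 : ℕ} (hK0 : K0 ≤ K)
    (a b : Fin n) :
    signs K0 (XU K m p e u a) (XU K m p e u b) 0 =
      signs K0 (X0 K m p e a) (X0 K m p e b) 0 := by
  have hp0 : (0 : ℤ) < p := by exact_mod_cast H.hp
  have hKK : (K0 : ℤ) ≤ K := by exact_mod_cast hK0
  funext α β γ
  unfold signs
  split_ifs with h
  · have h1 := sign_eq' (γ := 0) H.hK H.hS H.hm H.hτ H.hd (wx_abs hei hu) (he a) (he b) (he b)
      (h.1.trans hKK) (h.2.1.trans hKK) (by simp) (by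
        intro i j _ _ _ _ _ _ hcon
        have h5 : ({(0, i), (1, j), (2, i + j)} : Finset (Fin 4 × ℤ)).card = 3 := by
          rw [Finset.card_eq_three]
          exact ⟨(0, i), (1, j), (2, i + j), by simp, by simp, by simp, rfl⟩
        rw [← hcon] at h5
        have h6 : ({e a, e b, e b} : Finset (Fin 4 × ℤ)).card ≤ 2 := by
          have : ({e a, e b, e b} : Finset (Fin 4 × ℤ)) = {e a, e b} := by
            ext v; simp
          rw [this]
          exact Finset.card_le_two
        omega)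
    have e1 : α * XU K m p e u a + β * XU K m p e u b + γ * 0 =
        p * (α * yw K m (wx e u) (e a) + β * yw K m (wx e u) (e b) +
          0 * yw K m (wx e u) (e b)) := by
      rw [XU_eq hei, XU_eq hei]; ring
    have e2 : α * X0 K m p e a + β * X0 K m p e b + γ * 0 =
        p * (α * yy K m (e a) + β * yy K m (e b) + 0 * yy K m (e b)) := by
      unfold X0; ring
    rw [e1, e2, sign_mul, sign_mul, h1]
  · rfl

/-- no solution if the change `-1` does not occur -/
theorem XU_not (H : Setup n N K m d p S τ) {e : Fin n → Fin 4 × ℤ} (he : ∀ i, e i ∈ WW m d S τ)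
    (hei : Function.Injective e) {u : Fin n → ℤ} (hu : ∀ a, |u a| ≤ 1) (hu0 : ∀ a, 0 ≤ u a) :
    ¬ Solvable (XU K m p e u) := by
  rintro ⟨a, b, c, -, -, -, h⟩
  have hp0 : (0 : ℤ) < p := by exact_mod_cast H.hp
  have hK1 : (2 : ℤ) ≤ K := by exact_mod_cast H.hK
  have hone : |(1 : ℤ)| ≤ K := by rw [abs_one]; omega
  have hmone : |(-1 : ℤ)| ≤ K := by rw [abs_neg, abs_one]; omega
  have hw0 : ∀ v, 0 ≤ wx e u v := by
    intro v
    unfold wx
    by_cases h : ∃ a, e a = v
    · obtain ⟨a, rfl⟩ := h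
      rw [hei.extend_apply]
      exact hu0 a
    · rw [Function.extend_apply' _ _ _ h]
      simp
  have h1 := sign_eq' H.hK H.hS H.hm H.hτ H.hd (wx_abs hei hu) (he a) (he b) (he c)
    hone hone hmone (by
      intro i j _ _ _ e1
      have := hw0 (0, i)
      omega)
  have h2 : 1 * yw K m (wx e u) (e a) + 1 * yw K m (wx e u) (e b) +
      (-1) * yw K m (wx e u) (e c) = 0 := by
    rw [XU_eq hei, XU_eq hei, XU_eq hei] at h
    have h3 : (p : ℤ) * (yw K m (wx e u) (e a) + yw K m (wx e u) (e b)) =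
        p * yw K m (wx e u) (e c) := by linear_combination h
    have h4 := mul_left_cancel₀ hp0.ne' h3
    linear_combination h4
  rw [h2, sign_zero] at h1
  have h3 := sign_eq_zero_iff.1 h1.symm
  exact no_sum H.hK H.hm H.hτ H.hd (he a) (he b) (he c) (by linear_combination h3)

theorem TT_mem {t : ℤ × ℤ} (ht : t ∈ TT S τ) : ((0, t.1) : Fin 4 × ℤ) ∈ WW m d S τ ∧
    ((1, t.2) : Fin 4 × ℤ) ∈ WW m d S τ ∧ ((2, t.1 + t.2) : Fin 4 × ℤ) ∈ WW m d S τ := by
  have h := mem_TT.1 ht
  exact ⟨mem_WW.2 (Or.inl ⟨rfl, h.1⟩), mem_WW.2 (Or.inr (Or.inl ⟨rfl, h.2.1⟩)),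
    mem_WW.2 (Or.inr (Or.inr (Or.inl ⟨rfl, h.2.2⟩)))⟩

/-- the indices of a triple are different -/
theorem ix_ne {e : Fin n → Fin 4 × ℤ} {ix : Fin 4 × ℤ → Fin n}
    (hix : ∀ v ∈ WW m d S τ, e (ix v) = v) {v w : Fin 4 × ℤ} (hv : v ∈ WW m d S τ)
    (hw : w ∈ WW m d S τ) (hne : v ≠ w) : ix v ≠ ix w := by
  intro h
  apply hne
  rw [← hix v hv, ← hix w hw, h]

theorem XU_solvable {e : Fin n → Fin 4 × ℤ}
    {ix : Fin 4 × ℤ → Fin n} (hix : ∀ v ∈ WW m d S τ, e (ix v) = v)
    {u : Fin n → ℤ} {t : ℤ × ℤ} (ht : t ∈ TT S τ) (h0 : u (ix (0, t.1)) = -1)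
    (h1 : u (ix (1, t.2)) = -1) (h2 : u (ix (2, t.1 + t.2)) = -1) :
    Solvable (XU K m p e u) := by
  obtain ⟨m0, m1, m2⟩ := TT_mem (m := m) (d := d) ht
  refine ⟨ix (0, t.1), ix (1, t.2), ix (2, t.1 + t.2), ix_ne hix m0 m1 (by simp),
    ix_ne hix m0 m2 (by simp), ix_ne hix m1 m2 (by simp), ?_⟩
  have := yy_three K m t.1 t.2
  unfold XU
  rw [hix _ m0, hix _ m1, hix _ m2, h0, h1, h2]
  simp only [sg, Fin.isValue, Matrix.cons_val_zero, Matrix.cons_val_one, Matrix.cons_val]
  linear_combination (p : ℤ) * this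

end Pool.Agent.J6H11.Lsk
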