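import Pool.Agent.J6H11.Lsk.Level

/-!
# Planting a block
-/

set_option autoImplicit false

namespace Pool.Agent.J6H11.Lsk

open Finset

variable {n : ℕ}

abbrev Cube (n : ℕ) := Fin n → Bool

/-- averaging over one coordinate -/
theorem avg_one (a : Fin n) (Φ : Cube n → ℝ) :
    2 * ∑ h, Φ h = ∑ h, (Φ (Function.update h a false) + Φ (Function.update h a true)) := by
  have hinv : Function.Involutive (fun h : Cube n => Function.update h a (!h a)) := by
    intro h
    simp
  have h1 : ∑ h, Φ (Function.update h a (!h a)) = ∑ h, Φ h :=
    Equiv.sum_comp (Function.Involutive.toPerm _ hinv) Φ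
  have h2 : ∀ h : Cube n, Φ (Function.update h a false) + Φ (Function.update h a true) =
      Φ h + Φ (Function.update h a (!h a)) := by
    intro h
    cases hh : h a
    · have : Function.update h a false = h := by rw [← hh, Function.update_eq_self]
      rw [this]
      rfl
    · have : Function.update h a true = h := by rw [← hh, Function.update_eq_self]
      rw [this]
      simp only [Bool.not_true]
      ring
  rw [Finset.sum_congr rfl fun h _ => h2 h, Finset.sum_add_distrib, h1]
  ring

/-- change of three coordinates -/
def upd (a b c : Fin n) (u v w : Bool) (h : Cube n) : Cube n :=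
  Function.update (Function.update (Function.update h a u) b v) c w

theorem avg_three (a b c : Fin n) (Φ : Cube n → ℝ) :
    8 * ∑ h, Φ h = ∑ h, (Φ (upd a b c false false false h) + Φ (upd a b c false false true h) +
      Φ (upd a b c false true false h) + Φ (upd a b c false true true h) +
      Φ (upd a b c true false false h) + Φ (upd a b c true false true h) +
      Φ (upd a b c true true false h) + Φ (upd a b c true true true h)) := by
  have e1 := avg_one c Φ
  have e2 := avg_one b (fun h => Φ (Function.update h c false) + Φ (Function.update h c true))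
  have e3 := avg_one a (fun h => Φ (Function.update (Function.update h b false) c false) +
    Φ (Function.update (Function.update h b false) c true) +
    (Φ (Function.update (Function.update h b true) c false) +
    Φ (Function.update (Function.update h b true) c true)))
  have e4 : 8 * ∑ h, Φ h = 4 * (2 * ∑ h, Φ h) := by ring
  rw [e4, e1]
  have e5 : ∀ x : ℝ, 4 * x = 2 * (2 * x) := fun x => by ring
  rw [e5, e2, e3]
  refine Finset.sum_congr rfl fun h _ => ?_
  unfold upd
  ring

/-- the function that compares the values `100` and `000` of a block -/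
def cmp (a b c : Fin n) (h : Cube n) : ℝ :=
  if h b = false ∧ h c = false then (if h a then 1 else -1) else 0

/-- flip the first coordinate of the block if the two others vanish -/
def flip (a b c : Fin n) (h : Cube n) : Cube n :=
  if h b = false ∧ h c = false then Function.update h a (!h a) else h

theorem flip_inv {a b c : Fin n} (hab : a ≠ b) (hac : a ≠ c) :
    Function.Involutive (flip a b c) := by
  intro h
  unfold flip
  by_cases h1 : h b = false ∧ h c = false
  · rw [if_pos h1]
    have h2 : Function.update h a (!h a) b = false ∧ Function.update h a (!h a) c = false := by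
      rw [Function.update_of_ne hab.symm, Function.update_of_ne hac.symm]
      exact h1
    rw [if_pos h2]
    simp
  · rw [if_neg h1, if_neg h1]

theorem cmp_flip {a b c : Fin n} (hab : a ≠ b) (hac : a ≠ c) (h : Cube n) :
    cmp a b c (flip a b c h) = -cmp a b c h := by
  unfold flip
  by_cases h1 : h b = false ∧ h c = false
  · rw [if_pos h1]
    have h2 : Function.update h a (!h a) b = false ∧ Function.update h a (!h a) c = false := by
      rw [Function.update_of_ne hab.symm, Function.update_of_ne hac.symm]
      exact h1
    unfold cmp
    rw [if_pos h2, if_pos h1, Function.update_self]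
    cases h a <;> simp
  · rw [if_neg h1]
    unfold cmp
    rw [if_neg h1]
    simp

theorem cmp_flip_of_ne {a b c a' b' c' : Fin n} (haa : a ≠ a') (hab : a ≠ b') (hac : a ≠ c')
    (h : Cube n) : cmp a' b' c' (flip a b c h) = cmp a' b' c' h := by
  unfold flip
  by_cases h1 : h b = false ∧ h c = false
  · rw [if_pos h1]
    unfold cmp
    rw [Function.update_of_ne hab.symm, Function.update_of_ne hac.symm,
      Function.update_of_ne haa.symm]
  · rw [if_neg h1]

theorem cmp_abs (a b c : Fin n) (h : Cube n) : |cmp a b c h| ≤ 1 := by
  unfold cmp
  split_ifs <;> simp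

theorem upd_a {a b c : Fin n} (hab : a ≠ b) (hac : a ≠ c) (u v w : Bool) (h : Cube n) :
    upd a b c u v w h a = u := by
  unfold upd
  rw [Function.update_of_ne hac, Function.update_of_ne hab, Function.update_self]

theorem upd_b {a b c : Fin n} (hbc : b ≠ c) (u v w : Bool) (h : Cube n) :
    upd a b c u v w h b = v := by
  unfold upd
  rw [Function.update_of_ne hbc, Function.update_self]

theorem upd_c (a b c : Fin n) (u v w : Bool) (h : Cube n) :
    upd a b c u v w h c = w := by
  unfold upd
  rw [Function.update_self]

/-- the two values -/
theorem sum_cmp {a b c : Fin n} (hab : a ≠ b) (hac : a ≠ c) (hbc : b ≠ c) (Φ : Cube n → ℝ) :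
    ∑ h, (Φ (upd a b c true false false h) - Φ (upd a b c false false false h)) =
      8 * ∑ h, cmp a b c h * Φ h := by
  rw [avg_three a b c]
  refine Finset.sum_congr rfl fun h _ => ?_
  have key : ∀ u v w : Bool, cmp a b c (upd a b c u v w h) =
      if v = false ∧ w = false then (if u then 1 else -1) else 0 := by
    intro u v w
    unfold cmp
    rw [upd_a hab hac, upd_b hbc, upd_c]
  simp only [key]
  simp
  ring

/-- the influence -/
noncomputable def infl {G : Type} [DecidableEq G] (W : Cube n → G) (a b c : Fin n) : ℝ :=
  ∑ g ∈ Finset.univ.image W, |∑ h ∈ Finset.univ.filter (fun h => W h = g), cmp a b c h|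

theorem step_le {G : Type} [DecidableEq G] (W : Cube n → G) {a b c : Fin n} (hab : a ≠ b)
    (hac : a ≠ c) (hbc : b ≠ c) (ψ : G → ℝ) (hψ : ∀ g, |ψ g| ≤ 1) :
    |∑ h, (ψ (W (upd a b c true false false h)) - ψ (W (upd a b c false false false h)))| ≤
      8 * infl W a b c := by
  rw [sum_cmp hab hac hbc (fun h => ψ (W h)), abs_mul, abs_of_pos (by norm_num : (0 : ℝ) < 8)]
  refine mul_le_mul_of_nonneg_left ?_ (by norm_num)
  have e1 : ∑ h, cmp a b c h * ψ (W h) = ∑ g ∈ Finset.univ.image W,
      ψ g * ∑ h ∈ Finset.univ.filter (fun h => W h = g), cmp a b c h := by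
    rw [← Finset.sum_fiberwise_of_maps_to (s := Finset.univ) (t := Finset.univ.image W) (g := W)
      (fun h _ => Finset.mem_image_of_mem _ (Finset.mem_univ h))]
    refine Finset.sum_congr rfl fun g _ => ?_
    rw [Finset.mul_sum]
    refine Finset.sum_congr rfl fun h hh => ?_
    rw [(Finset.mem_filter.1 hh).2]
    ring
  rw [e1]
  refine (Finset.abs_sum_le_sum_abs _ _).trans ?_
  unfold infl
  refine Finset.sum_le_sum fun g _ => ?_
  rw [abs_mul]
  exact mul_le_of_le_one_left (abs_nonneg _) (hψ g)

end Pool.Agent.J6H11.Lsk
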